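import Pool.Agent.Helper79.AA.PS

/-!
# EE: the parameters with explicit dependence on the exponent (helper79)
-/

namespace Pool.Agent.Helper79.EE

/-- The parameters. -/
theorem paramsE (dg : ℕ) {w W : ℝ} (hw : 0 < w) (hW : 0 ≤ W) : ∃ η₂ A : ℝ, 0 < η₂ ∧ η₂ < 1 ∧
    1 ≤ A ∧ ∀ E X : ℕ, 1 ≤ X → A ≤ (X : ℝ) ^ (1 / (2 * (E : ℝ) + 4)) →
      ∃ (K : ℕ) (r₀ ρ : ℝ), 2 ≤ X ∧ 2 ≤ K ∧ K ≤ X ∧ (K : ℝ) ^ E ≤ (X : ℝ) ^ (1 / 2 : ℝ) ∧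
      2 * (K : ℝ) < ρ ∧ (X : ℝ) ^ (1 / 2 : ℝ) ≤ (ρ - K) * K ∧ 0 < r₀ ∧
      r₀ ≤ (X : ℝ) ^ (-η₂) ∧
      X * W * ((dg : ℝ) ^ 2 * (2 * (X : ℝ) ^ η₂) ^ dg) * r₀ ≤ (X : ℝ) ^ (1 - η₂) / 2 ∧
      ρ ≤ (X : ℝ) ^ (1 - η₂) / w * r₀ / 2 ∧
      (X : ℝ) / K ≤ 2 * (X : ℝ) ^ (1 - 1 / (2 * (E : ℝ) + 4)) := by
  have hd0 : (0 : ℝ) ≤ dg := Nat.cast_nonneg _
  set η₂ : ℝ := 1 / (8 * ((dg : ℝ) + 2)) with hη₂
  have hη0 : 0 < η₂ := by positivity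
  have hηε : ((dg : ℝ) + 2) * η₂ = 1 / 8 := by
    rw [hη₂]
    field_simp
  have hη1 : η₂ < 1 := by nlinarith
  set c₀ : ℝ := 1 / (2 * (W * ((dg : ℝ) ^ 2 * 2 ^ dg)) + 1) with hc₀
  have hWd : 0 ≤ W * ((dg : ℝ) ^ 2 * 2 ^ dg) := by positivity
  have hc₀0 : 0 < c₀ := by positivity
  have hc₀1 : c₀ ≤ 1 := by
    rw [hc₀, div_le_one (by positivity)]
    linarith
  have hc₀W : W * ((dg : ℝ) ^ 2 * 2 ^ dg) * c₀ ≤ 1 / 2 := by
    rw [hc₀, mul_one_div, div_le_iff₀ (by positivity)]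
    linarith
  set c₁ : ℝ := c₀ / (2 * w) with hc₁
  have hc₁0 : 0 < c₁ := by positivity
  refine ⟨η₂, max 2 (3 / c₁), hη0, hη1, le_trans one_le_two (le_max_left _ _),
    fun E X hX1 hA => ?_⟩
  set ε : ℝ := 1 / (2 * (E : ℝ) + 4) with hε
  have hE0 : (0 : ℝ) ≤ E := Nat.cast_nonneg _
  have hε0 : 0 < ε := by positivity
  have hε4 : ε ≤ 1 / 4 := by
    rw [hε]
    exact div_le_div_of_nonneg_left zero_le_one (by norm_num) (by linarith)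
  have hx1 : (1 : ℝ) ≤ X := by exact_mod_cast hX1
  have hx0 : (0 : ℝ) < X := by linarith
  have hmonoX : ∀ p q : ℝ, p ≤ q → (X : ℝ) ^ p ≤ (X : ℝ) ^ q := fun p q h =>
    Real.rpow_le_rpow_of_exponent_le hx1 h
  have hxε : 2 ≤ (X : ℝ) ^ ε := (le_max_left _ _).trans hA
  have hX2 : 2 ≤ X := by
    have h1 : (2 : ℝ) ≤ (X : ℝ) ^ (1 : ℝ) := hxε.trans (hmonoX _ _ (by linarith))
    rw [Real.rpow_one] at h1
    exact_mod_cast h1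
  have hc14 : 3 / c₁ ≤ (X : ℝ) ^ (1 / 4 : ℝ) :=
    ((le_max_right _ _).trans hA).trans (hmonoX _ _ hε4)
  set x : ℝ := (X : ℝ) with hx
  have hmono : ∀ p q : ℝ, p ≤ q → x ^ p ≤ x ^ q := hmonoX
  set K : ℕ := ⌊x ^ ε⌋₊ with hK
  have hK1 : (K : ℝ) ≤ x ^ ε := Nat.floor_le (by positivity)
  have hK2 : 2 ≤ K := Nat.le_floor (by exact_mod_cast hxε)
  have hK3 : x ^ ε / 2 ≤ K := by
    have := Nat.lt_floor_add_one (x ^ ε)
    rw [← hK] at this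
    linarith
  have hK0 : (0 : ℝ) < K := by exact_mod_cast (by omega : 0 < K)
  have hKone : (1 : ℝ) ≤ K := by exact_mod_cast (by omega : 1 ≤ K)
  have hKhalf : (K : ℝ) ≤ x ^ (1 / 2 : ℝ) := hK1.trans (hmono _ _ (by linarith))
  set r₀ : ℝ := c₀ * x ^ (-(((dg : ℝ) + 1) * η₂)) with hr₀
  set ρ : ℝ := x ^ (1 - η₂) / w * r₀ / 2 with hρ
  have hρ' : ρ = c₁ * x ^ (7 / 8 : ℝ) := by
    have e1 : x ^ (7 / 8 : ℝ) = x ^ (1 - η₂) * x ^ (-(((dg : ℝ) + 1) * η₂)) := by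
      rw [← Real.rpow_add hx0]
      congr 1
      linear_combination hηε
    rw [hρ, hr₀, hc₁, e1]
    field_simp
  have hhalf : 1 ≤ x ^ (1 / 2 : ℝ) := Real.one_le_rpow hx1 (by norm_num)
  have hρK : 3 * x ^ (1 / 2 : ℝ) ≤ ρ := by
    rw [hρ']
    have e1 : x ^ (7 / 8 : ℝ) = x ^ (1 / 2 : ℝ) * x ^ (3 / 8 : ℝ) := by
      rw [← Real.rpow_add hx0]
      norm_num
    have e2 : x ^ (1 / 4 : ℝ) ≤ x ^ (3 / 8 : ℝ) := hmono _ _ (by norm_num)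
    have e3 : 3 ≤ c₁ * x ^ (3 / 8 : ℝ) := by
      have := hc14.trans e2
      rw [div_le_iff₀ hc₁0] at this
      linarith
    rw [e1]
    nlinarith
  refine ⟨K, r₀, ρ, hX2, hK2, ?_, ?_, by linarith, ?_, by positivity, ?_, ?_, le_rfl, ?_⟩
  · have : (K : ℝ) ≤ X := by
      refine hK1.trans ?_
      calc x ^ ε ≤ x ^ (1 : ℝ) := hmono _ _ (by linarith)
        _ = x := Real.rpow_one x
    exact_mod_cast this
  · calc (K : ℝ) ^ E ≤ (x ^ ε) ^ E := pow_le_pow_left₀ hK0.le hK1 E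
      _ = x ^ (ε * E) := by rw [Real.rpow_mul hx0.le, Real.rpow_natCast]
      _ ≤ x ^ (1 / 2 : ℝ) := by
          refine hmono _ _ ?_
          rw [hε, div_mul_eq_mul_div, one_mul, div_le_iff₀ (by positivity)]
          linarith
  · calc x ^ (1 / 2 : ℝ) = x ^ (1 / 2 : ℝ) * 1 := (mul_one _).symm
      _ ≤ (ρ - K) * K := mul_le_mul (by linarith) hKone zero_le_one (by linarith)
  · calc r₀ ≤ 1 * x ^ (-(((dg : ℝ) + 1) * η₂)) :=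
          mul_le_mul_of_nonneg_right hc₀1 (by positivity)
      _ ≤ x ^ (-η₂) := by
          rw [one_mul]
          exact hmono _ _ (by nlinarith)
  · have e1 : (x ^ η₂) ^ dg = x ^ ((dg : ℝ) * η₂) := by
      rw [mul_comm, Real.rpow_mul hx0.le, Real.rpow_natCast]
    have e2 : x * x ^ ((dg : ℝ) * η₂) * x ^ (-(((dg : ℝ) + 1) * η₂)) = x ^ (1 - η₂) := by
      nth_rw 1 [← Real.rpow_one x]
      rw [← Real.rpow_add hx0, ← Real.rpow_add hx0]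
      congr 1
      ring
    calc x * W * ((dg : ℝ) ^ 2 * (2 * x ^ η₂) ^ dg) * r₀
        = (W * ((dg : ℝ) ^ 2 * 2 ^ dg) * c₀) * x ^ (1 - η₂) := by
          rw [mul_pow, e1, hr₀, ← e2]
          ring
      _ ≤ 1 / 2 * x ^ (1 - η₂) := mul_le_mul_of_nonneg_right hc₀W (by positivity)
      _ = _ := by ring
  · rw [div_le_iff₀ hK0]
    have e1 : x ^ (1 - ε) * x ^ ε = x := by
      rw [← Real.rpow_add hx0]
      have : (1 - ε + ε) = 1 := by ring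
      rw [this, Real.rpow_one]
    have hx1ε : 0 < x ^ (1 - ε) := by positivity
    calc x = 2 * x ^ (1 - ε) * (x ^ ε / 2) := by linear_combination -e1
      _ ≤ _ := mul_le_mul_of_nonneg_left hK3 (by positivity)

end Pool.Agent.Helper79.EE
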