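import Pool.Agent.Helper79.EE.Pencil
import Pool.Agent.Helper79.EE.Params
import Pool.Agent.Helper79.AA.Main1

/-!
# EE: counting the bad polynomials with explicit constants (helper79)
-/

open Polynomial

namespace Pool.Agent.Helper79.EE

open Pool.Agent.Helper79.GX Pool.Agent.Helper64.Per Pool.Agent.Helper79.AA Pool.Agent.Helper79.DD

section

variable {κ : IntermediateField ℚ Qbar} {J : Type} [Fintype J] [DecidableEq J]
  (ω : Module.Basis J ℚ κ) {dg : ℕ} {j₀ : J} {T : κ[X]}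

/-- The polynomials of the main part. -/
def S4 {β : Type} [Fintype β] [DecidableEq β] {A : Matrix β β κ[X]}
    (D : Uni (fun j => ω j) dg j₀ T A) (U V : Set ℂ) (z : ℂ → β → ℂ) (η η₂ : ℝ) (X : ℕ) :
    Set (Ix dg J → ℤ) :=
  {a | (∀ j, |a j| ≤ X) ∧ MvPolynomial.eval (fun i => ((a i : ℤ) : ℚ)) D.Θ ≠ 0 ∧ ∃ t ∈ V,
      Fv (fun j => ω j) (fun i => (a i : ℂ)) t = 0 ∧ KBad κ U z t ∧ ‖t‖ ≤ (X : ℝ) ^ η ∧
      (X : ℝ) ^ (1 - η₂) < ‖Fd (fun j => ω j) (fun i => (a i : ℂ)) t‖ ∧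
      ∀ s, aeval s T = 0 → (X : ℝ) ^ (-η) < ‖t - s‖}

theorem mainPart {U V : Set ℂ} (hU : IsOpen U) (hU' : IsPreconnected U) (hV : IsOpen V)
    (hV' : Convex ℝ V) (hVU : V ⊆ U) : ∃ η₂ : ℝ, 0 < η₂ ∧ η₂ < 1 ∧ ∀ η : ℝ, 0 < η → η ≤ η₂ →
    ∃ C : ℝ, 0 ≤ C ∧ ∀ (β : Type) [Fintype β] [DecidableEq β] (A : Matrix β β κ[X])
      (D : Uni (fun j => ω j) dg j₀ T A) (z : ℂ → β → ℂ),
      (∀ i, AnalyticOnNhd ℂ (fun t => z t i) U) →
      (∀ t ∈ U, ∀ i, aeval t T * deriv (fun t => z t i) t = ∑ l, aeval t (A i l) * z t l) →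
      ∀ B E : ℕ, CoreC (Fintype.card (D.Γ × β)) (2 * D.c) B E → ∀ X : ℕ, 1 ≤ X →
      ((S4 ω D U V z η η₂ X).ncard : ℝ) ≤
        C * (B + 1) * (X : ℝ) ^ ((Fintype.card (Ix dg J) : ℝ) - 1 / (2 * (E : ℝ) + 4)) := by
  classical
  have : Nonempty J := ⟨j₀⟩
  set w : ℂ := algebraMap κ ℂ (ω j₀) with hw
  have hw0 : w ≠ 0 := by
    rw [hw, Ne, map_eq_zero]
    exact ω.ne_zero j₀
  set W : ℝ := ∑ i : Ix dg J, ‖algebraMap κ ℂ (ω i.2)‖ with hW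
  have hW0 : 0 ≤ W := Finset.sum_nonneg fun _ _ => norm_nonneg _
  set n : ℕ := Fintype.card (Ix dg J) with hn
  have hn1 : 1 ≤ n := Fintype.card_pos
  obtain ⟨η₂, A₀, hη₂, hη₂', hA₀, hpar⟩ := paramsE dg (norm_pos_iff.2 hw0) hW0
  refine ⟨η₂, hη₂, hη₂', fun η hη0 hηη => ?_⟩
  refine ⟨3 ^ n * A₀ + 3 ^ (n - 1) * (dg * 8), by positivity, ?_⟩
  intro β _ _ A D z hz hode B E hcore X hX1
  set ε : ℝ := 1 / (2 * (E : ℝ) + 4) with hε
  have hx1 : (1 : ℝ) ≤ X := by exact_mod_cast hX1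
  have hx0 : (0 : ℝ) < X := by linarith
  have hB0 : (0 : ℝ) ≤ B := Nat.cast_nonneg _
  have hXn : 0 ≤ (X : ℝ) ^ ((n : ℝ) - ε) := by positivity
  rcases lt_or_ge ((X : ℝ) ^ ε) A₀ with hlt | hge
  · -- small `X`
    have h1 := box_card' hX1 (S4 ω D U V z η η₂ X) fun a ha => ha.1
    refine h1.trans ?_
    have h2 : (X : ℝ) ^ n = (X : ℝ) ^ ε * (X : ℝ) ^ ((n : ℝ) - ε) := by
      rw [← Real.rpow_add hx0, ← Real.rpow_natCast]
      congr 1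
      ring
    rw [mul_pow, ← hn, h2]
    have h3 : (3 : ℝ) ^ n * ((X : ℝ) ^ ε * (X : ℝ) ^ ((n : ℝ) - ε)) ≤
        3 ^ n * (A₀ * (X : ℝ) ^ ((n : ℝ) - ε)) :=
      mul_le_mul_of_nonneg_left (mul_le_mul_of_nonneg_right hlt.le hXn) (by positivity)
    refine h3.trans ?_
    rw [← mul_assoc]
    refine mul_le_mul_of_nonneg_right ?_ hXn
    have h4 : (0 : ℝ) ≤ 3 ^ n * A₀ := by positivity
    have h5 : (0 : ℝ) ≤ 3 ^ (n - 1) * (dg * 8) := by positivity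
    nlinarith [mul_nonneg h4 hB0, mul_nonneg h5 hB0]
  obtain ⟨K, r₀, ρ, hX2, hK2, hKX, hKE, hρK, hRK, hr₀, hr₀η, hr₀d, hρ, hXK⟩ := hpar E X hX1 hge
  have hK0 : (0 : ℝ) < K := by exact_mod_cast (by omega : 0 < K)
  have hmono : ∀ p q : ℝ, p ≤ q → (X : ℝ) ^ p ≤ (X : ℝ) ^ q := fun p q h =>
    Real.rpow_le_rpow_of_exponent_le hx1 h
  have hr₀1 : r₀ ≤ 1 := by
    refine hr₀η.trans ?_
    calc (X : ℝ) ^ (-η₂) ≤ (X : ℝ) ^ (0 : ℝ) := hmono _ _ (by linarith)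
      _ = 1 := Real.rpow_zero _
  have hy1 : 1 ≤ (X : ℝ) ^ η₂ := Real.one_le_rpow hx1 hη₂.le
  -- fibres
  have hfib : ∀ a : Ix dg J → ℤ, (∀ j, |a j| ≤ X) →
      (Set.ncard {l : ℤ | Function.update a (0, j₀) l ∈ S4 ω D U V z η η₂ X} : ℝ) ≤
        (dg * B : ℕ) * (4 * X / K) := by
    intro a _
    refine fib_count (P := fun l => Function.update a (0, j₀) l ∈ S4 ω D U V z η η₂ X)
      (by omega) hKX (fun l hl => ?_) fun q Ξ hΞ => ?_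
    · have := hl.1 (0, j₀)
      rwa [Function.update_self] at this
    · set a' : Ix dg J → ℤ := Function.update a (0, j₀) q with ha'
      have hpt : ∀ u : ℤ, pt (0, j₀) a' u = Function.update a (0, j₀) (q + u) := by
        intro u
        funext i
        unfold pt
        by_cases hi : i = (0, j₀)
        · rw [if_pos hi, ha', hi, Function.update_self, Function.update_self]
        · rw [if_neg hi, add_zero, ha', Function.update_of_ne hi, Function.update_of_ne hi]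
      have hmem : ∀ u ∈ Ξ, pt (0, j₀) a' u ∈ S4 ω D U V z η η₂ X := fun u hu => by
        rw [hpt]
        exact (hΞ u hu).2
      have hex : ∀ u ∈ Ξ, ∃ t ∈ V,
          Fv (fun j => ω j) (fun i => ((pt (0, j₀) a' u i : ℤ) : ℂ)) t = 0 ∧ KBad κ U z t ∧
          ‖t‖ ≤ (X : ℝ) ^ η ∧
          (X : ℝ) ^ (1 - η₂) < ‖Fd (fun j => ω j) (fun i => ((pt (0, j₀) a' u i : ℤ) : ℂ)) t‖ ∧
          ∀ s, aeval s T = 0 → (X : ℝ) ^ (-η) < ‖t - s‖ := fun u hu => (hmem u hu).2.2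
      choose! τ hτ using hex
      simp only [ptC_int, Fd_ptC] at hτ
      refine pencilE ω D hcore hU hU' hV hV' hVU hz hode hX2 hK2 hKE hρK hRK hr₀
        (fun u hu => (hΞ u hu).1) (τ := τ) (a := a')
        (fun u hu i => (hmem u hu).1 i) (fun u hu => (hmem u hu).2.1)
        (fun u hu => (hτ u hu).1) (fun u hu => (hτ u hu).2.1) (fun u hu => (hτ u hu).2.2.1)
        (fun u hu t ht h0 => ?_) (fun u hu t ht => ?_) (fun u hu => ?_)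
      · have h1 := (hτ u hu).2.2.2.2.2 t h0
        rw [Metric.mem_ball, dist_eq_norm, norm_sub_rev] at ht
        have h2 : (X : ℝ) ^ (-η₂) ≤ (X : ℝ) ^ (-η) := hmono _ _ (by linarith)
        linarith
      · rw [Metric.mem_ball, dist_eq_norm] at ht
        have hτn : ‖τ u‖ ≤ (X : ℝ) ^ η₂ := (hτ u hu).2.2.2.1.trans (hmono _ _ hηη)
        have htn : ‖t‖ ≤ 2 * (X : ℝ) ^ η₂ := by
          calc ‖t‖ = ‖τ u + (t - τ u)‖ := by rw [add_sub_cancel]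
            _ ≤ ‖τ u‖ + ‖t - τ u‖ := norm_add_le _ _
            _ ≤ _ := by linarith
        have hpb : ∀ i, ‖ptC (0, j₀) a' (u : ℂ) i‖ ≤ (X : ℝ) := by
          intro i
          rw [← ptC_int]
          simp only
          rw [Complex.norm_intCast]
          exact_mod_cast (hmem u hu).1 i
        have h1 := Fd_diff (fun j => ω j) hx0.le (M := 2 * (X : ℝ) ^ η₂) (by linarith) hpb
          htn (hτn.trans (by linarith))
        rw [Fd_ptC, Fd_ptC] at h1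
        have h2 := (hτ u hu).2.2.2.2.1
        calc _ ≤ _ := h1
          _ ≤ X * W * ((dg : ℝ) ^ 2 * (2 * (X : ℝ) ^ η₂) ^ dg) * r₀ :=
              mul_le_mul_of_nonneg_left ht.le (by positivity)
          _ ≤ (X : ℝ) ^ (1 - η₂) / 2 := hr₀d
          _ ≤ _ := by linarith
      · refine hρ.trans ?_
        have h2 := (hτ u hu).2.2.2.2.1
        have h3 : (X : ℝ) ^ (1 - η₂) / ‖w‖ ≤
            ‖Fd (fun j => ω j) (fun i => (a' i : ℂ)) (τ u)‖ / ‖w‖ :=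
          div_le_div_of_nonneg_right h2.le (norm_nonneg _)
        exact div_le_div_of_nonneg_right (mul_le_mul_of_nonneg_right h3 hr₀.le) two_pos.le
  set N : ℕ := ⌊((dg * B : ℕ) : ℝ) * (4 * X / K)⌋₊ with hN
  have hc := count_fib (0, j₀) X N (S4 ω D U V z η η₂ X) (fun a ha => ha.1) fun a ha =>
    Nat.le_floor (hfib a ha)
  have hNle : (N : ℝ) ≤ dg * B * 8 * (X : ℝ) ^ (1 - ε) := by
    calc (N : ℝ) ≤ ((dg * B : ℕ) : ℝ) * (4 * X / K) := Nat.floor_le (by positivity)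
      _ = (dg * B * 4) * ((X : ℝ) / K) := by
          push_cast
          ring
      _ ≤ (dg * B * 4) * (2 * (X : ℝ) ^ (1 - ε)) := mul_le_mul_of_nonneg_left hXK (by positivity)
      _ = _ := by ring
  have h5 : ((S4 ω D U V z η η₂ X).ncard : ℝ) ≤ (2 * X + 1) ^ (n - 1) * N := by exact_mod_cast hc
  have h6 : (X : ℝ) ^ ((n : ℝ) - ε) = (X : ℝ) ^ (n - 1) * (X : ℝ) ^ (1 - ε) := by
    rw [← Real.rpow_natCast, Nat.cast_sub hn1, Nat.cast_one, ← Real.rpow_add hx0]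
    congr 1
    ring
  calc ((S4 ω D U V z η η₂ X).ncard : ℝ) ≤ (2 * X + 1) ^ (n - 1) * N := h5
    _ ≤ (3 * (X : ℝ)) ^ (n - 1) * (dg * B * 8 * (X : ℝ) ^ (1 - ε)) :=
        mul_le_mul (pow_le_pow_left₀ (by positivity) (by linarith) _) hNle (by positivity)
          (by positivity)
    _ = (3 ^ (n - 1) * (dg * 8)) * B * (X : ℝ) ^ ((n : ℝ) - ε) := by
        rw [mul_pow, h6]
        ring
    _ ≤ _ := by
        refine mul_le_mul_of_nonneg_right ?_ hXn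
        have h4 : (0 : ℝ) ≤ 3 ^ n * A₀ := by positivity
        have h5 : (0 : ℝ) ≤ 3 ^ (n - 1) * (dg * 8) := by positivity
        nlinarith [mul_nonneg h4 hB0, mul_nonneg h5 hB0]

/-- The number of bad polynomials. -/
theorem countE (hdg : 1 ≤ dg) (hT0 : T ≠ 0) {U V : Set ℂ} (hU : IsOpen U)
    (hU' : IsPreconnected U) (hV : IsOpen V) (hV' : Convex ℝ V) (hVU : V ⊆ U)
    {Θ : MvPolynomial (Ix dg J) ℚ} (hΘ : Θ ≠ 0) (j₀ : J) : ∃ θ₀ C : ℝ, 0 < θ₀ ∧ 0 ≤ C ∧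
    ∀ (β : Type) [Fintype β] [DecidableEq β] (A : Matrix β β κ[X])
      (D : Uni (fun j => ω j) dg j₀ T A) (z : ℂ → β → ℂ), D.Θ = Θ →
      (∀ i, AnalyticOnNhd ℂ (fun t => z t i) U) →
      (∀ t ∈ U, ∀ i, aeval t T * deriv (fun t => z t i) t = ∑ l, aeval t (A i l) * z t l) →
      ∀ B E : ℕ, CoreC (Fintype.card (D.Γ × β)) (2 * D.c) B E → ∀ X : ℕ, 1 ≤ X →
      (Set.ncard {a : Ix dg J → ℤ | (∀ i, |a i| ≤ X) ∧ ∃ t ∈ V,
        Fv (fun j => ω j) (fun i => (a i : ℂ)) t = 0 ∧ KBad κ U z t} : ℝ) ≤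
      C * (X : ℝ) ^ ((Fintype.card (Ix dg J) : ℝ) - θ₀) +
      C * (B + 1) * (X : ℝ) ^ ((Fintype.card (Ix dg J) : ℝ) - 1 / (2 * (E : ℝ) + 4)) := by
  classical
  have : Nonempty J := ⟨j₀⟩
  have hω : ∀ j, ω j ≠ 0 := fun j => ω.ne_zero j
  set n : ℕ := Fintype.card (Ix dg J) with hn
  have hn1 : 1 ≤ n := Fintype.card_pos
  obtain ⟨η₂, hη₂, hη₂', hmain⟩ := mainPart ω (dg := dg) (j₀ := j₀) (T := T) hU hU' hV hV' hVU
  obtain ⟨η, θ, C₁, hη0, hηη, hθ0, hθ1, hder⟩ := count_deriv (ω := fun j => ω j) hω hdg hη₂ hη₂'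
  have hη1 : η < 1 := lt_of_le_of_lt hηη hη₂'
  obtain ⟨C₄, hC₄, h4⟩ := hmain η hη0 hηη
  obtain ⟨C₂, hlarge⟩ := count_large (ω := fun j => ω j) hω hdg hη0 hη1
  obtain ⟨C₃, hzero⟩ := count_zero hΘ
  set R : Finset ℂ := (roots_finite hT0).toFinset with hR
  have hRm : ∀ s, s ∈ R ↔ aeval s T = 0 := fun s => by rw [hR, Set.Finite.mem_toFinset]; rfl
  -- the pieces
  set S0 : ℕ → Set (Ix dg J → ℤ) := fun X => {a | (∀ j, |a j| ≤ X) ∧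
      MvPolynomial.eval (fun i => ((a i : ℤ) : ℚ)) Θ = 0} with hS0
  set S1 : ℕ → Set (Ix dg J → ℤ) := fun X => {a | (∀ j, |a j| ≤ X) ∧ ∃ t : ℂ, ‖t‖ ≤ (X : ℝ) ^ η ∧
      ‖Fd (fun j => ω j) (fun i => (a i : ℂ)) t‖ ≤ (X : ℝ) ^ (1 - η₂) ∧
      Fv (fun j => ω j) (fun i => (a i : ℂ)) t = 0} with hS1
  set S2 : ℕ → Set (Ix dg J → ℤ) := fun X => {a | (∀ j, |a j| ≤ X) ∧ ∃ t : ℂ,
      (X : ℝ) ^ η ≤ ‖t‖ ∧ Fv (fun j => ω j) (fun i => (a i : ℂ)) t = 0} with hS2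
  set S3 : ℂ → ℕ → Set (Ix dg J → ℤ) := fun s X => {a | (∀ j, |a j| ≤ X) ∧ ∃ t : ℂ,
      ‖t - s‖ ≤ (X : ℝ) ^ (-η) ∧ Fv (fun j => ω j) (fun i => (a i : ℂ)) t = 0} with hS3
  have p0 : PS n fun X => ((S0 X).ncard : ℝ) := by
    refine PS.of (θ := 1) (C := C₃) one_pos fun X hX => ?_
    have h1 := hzero X hX
    have h2 : ((S0 X).ncard : ℝ) ≤ C₃ * (X : ℝ) ^ (n - 1) := by exact_mod_cast h1
    have h3 : (X : ℝ) ^ ((n : ℝ) - 1) = (X : ℝ) ^ (n - 1) := by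
      rw [← Real.rpow_natCast, Nat.cast_sub hn1, Nat.cast_one]
    rw [h3]
    exact h2
  have p1 : PS n fun X => ((S1 X).ncard : ℝ) := PS.of hθ0 fun X hX => hder X hX
  have p2 : PS n fun X => ((S2 X).ncard : ℝ) := PS.of hη0 fun X hX => hlarge X hX
  have p3 : PS n fun X => ∑ s ∈ R, ((S3 s X).ncard : ℝ) := by
    refine PS.sum R fun s _ => ?_
    obtain ⟨C, hC⟩ := count_near (ω := fun j => ω j) hω hdg s hη0 hη1
    exact PS.of hη0 fun X hX => hC X hX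
  obtain ⟨θ₀, C₀, hθ₀, h5⟩ := ((p0.add p1).add p2).add p3
  refine ⟨θ₀, |C₀| + C₄, hθ₀, by positivity, ?_⟩
  intro β _ _ A D z hDΘ hz hode B E hcore X hX
  have hx1 : (1 : ℝ) ≤ X := by exact_mod_cast hX
  have g4 := h4 β A D z hz hode B E hcore X hX
  have g5 := h5 X hX
  -- the union
  set Y : Set (Ix dg J → ℤ) := {a | ∀ j, |a j| ≤ X} with hY
  have hYf : Y.Finite := (box_card X Y fun a ha => ha).1
  have hS3f : ∀ s, (S3 s X).Finite := fun s => hYf.subset fun a ha => ha.1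
  have hsub : {a : Ix dg J → ℤ | (∀ i, |a i| ≤ X) ∧ ∃ t ∈ V,
      Fv (fun j => ω j) (fun i => (a i : ℂ)) t = 0 ∧ KBad κ U z t} ⊆
      (((S0 X ∪ S1 X) ∪ S2 X) ∪ ⋃ s ∈ R, S3 s X) ∪ S4 ω D U V z η η₂ X := by
    rintro a ⟨ha, t, htV, hFt, hbt⟩
    by_cases h0 : MvPolynomial.eval (fun i => ((a i : ℤ) : ℚ)) D.Θ = 0
    · rw [hDΘ] at h0
      exact Or.inl (Or.inl (Or.inl (Or.inl ⟨ha, h0⟩)))
    by_cases h2 : (X : ℝ) ^ η ≤ ‖t‖
    · exact Or.inl (Or.inl (Or.inr ⟨ha, t, h2, hFt⟩))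
    push Not at h2
    by_cases h1 : ‖Fd (fun j => ω j) (fun i => (a i : ℂ)) t‖ ≤ (X : ℝ) ^ (1 - η₂)
    · exact Or.inl (Or.inl (Or.inl (Or.inr ⟨ha, t, h2.le, h1, hFt⟩)))
    push Not at h1
    by_cases h3 : ∃ s, aeval s T = 0 ∧ ‖t - s‖ ≤ (X : ℝ) ^ (-η)
    · obtain ⟨s, hs, hs'⟩ := h3
      refine Or.inl (Or.inr ?_)
      rw [Set.mem_iUnion₂]
      exact ⟨s, (hRm s).2 hs, ha, t, hs', hFt⟩
    push Not at h3
    exact Or.inr ⟨ha, h0, t, htV, hFt, hbt, h2.le, h1, h3⟩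
  have hf0 : (S0 X).Finite := hYf.subset fun a ha => ha.1
  have hf1 : (S1 X).Finite := hYf.subset fun a ha => ha.1
  have hf2 : (S2 X).Finite := hYf.subset fun a ha => ha.1
  have hf3 : (⋃ s ∈ R, S3 s X).Finite := R.finite_toSet.biUnion fun s _ => hS3f s
  have hf4 : (S4 ω D U V z η η₂ X).Finite := hYf.subset fun a ha => ha.1
  have h1 := Set.ncard_le_ncard hsub ((((hf0.union hf1).union hf2).union hf3).union hf4)
  have h2 := Set.ncard_union_le (((S0 X ∪ S1 X) ∪ S2 X) ∪ ⋃ s ∈ R, S3 s X)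
    (S4 ω D U V z η η₂ X)
  have h3 := Set.ncard_union_le ((S0 X ∪ S1 X) ∪ S2 X) (⋃ s ∈ R, S3 s X)
  have h4 := Set.ncard_union_le (S0 X ∪ S1 X) (S2 X)
  have h5 := Set.ncard_union_le (S0 X) (S1 X)
  have h6 : (⋃ s ∈ R, S3 s X).ncard ≤ ∑ s ∈ R, (S3 s X).ncard :=
    Finset.set_ncard_biUnion_le R fun s => S3 s X
  have h7 : (Set.ncard {a : Ix dg J → ℤ | (∀ i, |a i| ≤ X) ∧ ∃ t ∈ V,
      Fv (fun j => ω j) (fun i => (a i : ℂ)) t = 0 ∧ KBad κ U z t}) ≤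
      (S0 X).ncard + (S1 X).ncard + (S2 X).ncard + ∑ s ∈ R, (S3 s X).ncard +
        (S4 ω D U V z η η₂ X).ncard := by
    omega
  have h8 : ((Set.ncard {a : Ix dg J → ℤ | (∀ i, |a i| ≤ X) ∧ ∃ t ∈ V,
      Fv (fun j => ω j) (fun i => (a i : ℂ)) t = 0 ∧ KBad κ U z t} : ℕ) : ℝ) ≤
      ((S0 X).ncard : ℝ) + (S1 X).ncard + (S2 X).ncard + ∑ s ∈ R, ((S3 s X).ncard : ℝ) +
        (S4 ω D U V z η η₂ X).ncard := by exact_mod_cast h7
  have hY0 : 0 ≤ (X : ℝ) ^ ((n : ℝ) - θ₀) := by positivity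
  have hY1 : 0 ≤ (X : ℝ) ^ ((n : ℝ) - 1 / (2 * (E : ℝ) + 4)) := by positivity
  have hB0 : (0 : ℝ) ≤ (B : ℝ) + 1 := by positivity
  refine h8.trans ?_
  have g8 : C₀ * (X : ℝ) ^ ((n : ℝ) - θ₀) ≤ |C₀| * (X : ℝ) ^ ((n : ℝ) - θ₀) :=
    mul_le_mul_of_nonneg_right (le_abs_self _) hY0
  have g9 : 0 ≤ |C₀| * ((B + 1) * (X : ℝ) ^ ((n : ℝ) - 1 / (2 * (E : ℝ) + 4))) := by positivity
  have g10 : 0 ≤ C₄ * (X : ℝ) ^ ((n : ℝ) - θ₀) := by positivity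
  linarith

end

end Pool.Agent.Helper79.EE
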