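import Pool.Agent.Helper79.EE.Push
import Pool.Agent.Helper79.DD.Num

/-!
# EE: the growth of the iterates of the tensor powers (helper79)
-/

open Polynomial

namespace Pool.Agent.Helper79.EE

open Pool.Agent.Helper79.CU Pool.Agent.Helper79.GX Pool.Agent.Helper79.AA Pool.Agent.Helper79.DD

/-- Growth of products. -/
theorem gr_prod {ι₁ ι₂ ι₃ S : Type} [Fintype ι₁] [DecidableEq ι₁] [Fintype ι₂] [DecidableEq ι₂]
    [Fintype ι₃] [DecidableEq ι₃] [Fintype S] {T : ℚ[X]} {A₁ : Matrix ι₁ ι₁ ℚ[X]}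
    {A₂ : Matrix ι₂ ι₂ ℚ[X]} {A₃ : Matrix ι₃ ι₃ ℚ[X]} {u : ℚ} {Q₁ Q₂ : ℝ} (hQ₁ : 1 ≤ Q₁)
    (hQ₂ : Q₁ ≤ Q₂) (h₁ : Gr T A₁ u Q₁) (h₂ : Gr T A₂ u Q₂)
    (f₁ g₁ : ι₃ → ι₃ → S → ι₁) (f₂ g₂ : ι₃ → ι₃ → S → ι₂) (ν : ι₃ → ι₃ → S → ℚ)
    (h : ∀ n x y, gm T A₃ n u x y = ∑ p ∈ Finset.HasAntidiagonal.antidiagonal n, ∑ s,
      gm T A₁ p.1 u (f₁ x y s) (g₁ x y s) * gm T A₂ p.2 u (f₂ x y s) (g₂ x y s) * ν x y s) :
    Gr T A₃ u (Q₂ * (2 * Q₁)) := by
  classical
  obtain ⟨C, hC⟩ := h₁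
  obtain ⟨C', hC'⟩ := h₂
  have hC0 : 0 ≤ C := by
    obtain ⟨q, hq0, hq, -⟩ := hC 0
    rw [pow_zero, mul_one] at hq
    exact le_trans (Nat.cast_nonneg _) hq
  have hC'0 : 0 ≤ C' := by
    obtain ⟨q, hq0, hq, -⟩ := hC' 0
    rw [pow_zero, mul_one] at hq
    exact le_trans (Nat.cast_nonneg _) hq
  have hQ20 : 1 ≤ Q₂ := hQ₁.trans hQ₂
  -- the common denominator and the size of `ν`
  set d : ℕ := ∏ x, ∏ y, ∏ s, (ν x y s).den with hd
  have hd0 : 0 < d := Finset.prod_pos fun x _ => Finset.prod_pos fun y _ =>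
    Finset.prod_pos fun s _ => (ν x y s).den_pos
  have hdν : ∀ x y s, ∃ k : ℤ, (d : ℚ) * ν x y s = k := by
    intro x y s
    have h1 : (ν x y s).den ∣ d := by
      refine dvd_trans ?_ (Finset.dvd_prod_of_mem (fun x => ∏ y, ∏ s, (ν x y s).den)
        (Finset.mem_univ x))
      refine dvd_trans ?_ (Finset.dvd_prod_of_mem (fun y => ∏ s, (ν x y s).den)
        (Finset.mem_univ y))
      exact Finset.dvd_prod_of_mem (fun s => (ν x y s).den) (Finset.mem_univ s)
    obtain ⟨e, he⟩ := h1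
    refine ⟨e * (ν x y s).num, ?_⟩
    have h2 : ν x y s * ((ν x y s).den : ℚ) = ((ν x y s).num : ℚ) := Rat.mul_den_eq_num _
    rw [he]
    push_cast
    rw [← h2]
    ring
  set V : ℝ := ∑ x, ∑ y, ∑ s, |((ν x y s : ℚ) : ℝ)| with hV
  have hV0 : 0 ≤ V := Finset.sum_nonneg fun x _ => Finset.sum_nonneg fun y _ =>
    Finset.sum_nonneg fun s _ => abs_nonneg _
  have hVν : ∀ x y, ∑ s, |((ν x y s : ℚ) : ℝ)| ≤ V := by
    intro x y
    refine le_trans ?_ (Finset.single_le_sum (f := fun x => ∑ y, ∑ s, |((ν x y s : ℚ) : ℝ)|)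
      (fun x _ => Finset.sum_nonneg fun y _ => Finset.sum_nonneg fun s _ => abs_nonneg _)
      (Finset.mem_univ x))
    exact Finset.single_le_sum (f := fun y => ∑ s, |((ν x y s : ℚ) : ℝ)|)
      (fun y _ => Finset.sum_nonneg fun s _ => abs_nonneg _) (Finset.mem_univ y)
  refine ⟨(d + 2 * V) * (C * C'), fun N => ?_⟩
  obtain ⟨q, hq0, hq, hj⟩ := hC N
  obtain ⟨q', hq'0, hq', hj'⟩ := hC' N
  refine ⟨d * (q * q'), Nat.mul_pos hd0 (Nat.mul_pos hq0 hq'0), ?_, fun j hjN x y => ⟨?_, ?_⟩⟩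
  · push_cast
    have e1 : (q : ℝ) * q' ≤ (C * C') * (Q₂ * (2 * Q₁)) ^ N := by
      calc (q : ℝ) * q' ≤ (C * Q₁ ^ N) * (C' * Q₂ ^ N) :=
            mul_le_mul hq hq' (Nat.cast_nonneg _) (by positivity)
        _ = (C * C') * (Q₂ * Q₁) ^ N := by
            rw [mul_pow]
            ring
        _ ≤ (C * C') * (Q₂ * (2 * Q₁)) ^ N := by
            refine mul_le_mul_of_nonneg_left (pow_le_pow_left₀ (by positivity) ?_ _)
              (by positivity)
            exact mul_le_mul_of_nonneg_left (by linarith) (by linarith)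
    calc (d : ℝ) * (q * q') ≤ d * ((C * C') * (Q₂ * (2 * Q₁)) ^ N) :=
          mul_le_mul_of_nonneg_left e1 (Nat.cast_nonneg _)
      _ ≤ (d + 2 * V) * ((C * C') * (Q₂ * (2 * Q₁)) ^ N) :=
          mul_le_mul_of_nonneg_right (by linarith) (by positivity)
      _ = _ := by ring
  · rw [h]
    have h3 : ∀ p ∈ Finset.HasAntidiagonal.antidiagonal j, ∀ s, ∃ n : ℤ,
        ((d * (q * q') : ℕ) : ℚ) * (gm T A₁ p.1 u (f₁ x y s) (g₁ x y s) *
          gm T A₂ p.2 u (f₂ x y s) (g₂ x y s) * ν x y s) = n := by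
      intro p hp s
      have hp' : p.1 + p.2 = j := Finset.HasAntidiagonal.mem_antidiagonal.1 hp
      obtain ⟨n, hn⟩ := (hj p.1 (by omega) (f₁ x y s) (g₁ x y s)).1
      obtain ⟨n', hn'⟩ := (hj' p.2 (by omega) (f₂ x y s) (g₂ x y s)).1
      obtain ⟨k, hk⟩ := hdν x y s
      refine ⟨n * n' * k, ?_⟩
      push_cast
      rw [← hn, ← hn', ← hk]
      ring
    choose! n hn using h3
    refine ⟨∑ p ∈ Finset.HasAntidiagonal.antidiagonal j, ∑ s, n p s, ?_⟩
    rw [Finset.mul_sum]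
    push_cast
    refine Finset.sum_congr rfl fun p hp => ?_
    rw [Finset.mul_sum]
    refine Finset.sum_congr rfl fun s _ => ?_
    rw [← hn p hp s]
    push_cast
    ring
  · rw [h]
    push_cast
    have h4 : ∀ p ∈ Finset.HasAntidiagonal.antidiagonal j,
        |∑ s, ((gm T A₁ p.1 u (f₁ x y s) (g₁ x y s) : ℚ) : ℝ) *
          ((gm T A₂ p.2 u (f₂ x y s) (g₂ x y s) : ℚ) : ℝ) * ((ν x y s : ℚ) : ℝ)| ≤
        (C * C' * Q₂ ^ j) * V := by
      intro p hp
      have hp' : p.1 + p.2 = j := Finset.HasAntidiagonal.mem_antidiagonal.1 hp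
      refine (Finset.abs_sum_le_sum_abs _ _).trans ?_
      refine le_trans ?_ (mul_le_mul_of_nonneg_left (hVν x y) (by positivity))
      rw [Finset.mul_sum]
      refine Finset.sum_le_sum fun s _ => ?_
      rw [abs_mul, abs_mul]
      refine mul_le_mul_of_nonneg_right ?_ (abs_nonneg _)
      have g1 := (hj p.1 (by omega) (f₁ x y s) (g₁ x y s)).2
      have g2 := (hj' p.2 (by omega) (f₂ x y s) (g₂ x y s)).2
      calc _ ≤ (C * Q₁ ^ p.1) * (C' * Q₂ ^ p.2) :=
            mul_le_mul g1 g2 (abs_nonneg _) (by positivity)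
        _ ≤ (C * Q₂ ^ p.1) * (C' * Q₂ ^ p.2) := by
            refine mul_le_mul_of_nonneg_right ?_ (by positivity)
            exact mul_le_mul_of_nonneg_left (pow_le_pow_left₀ (by linarith) hQ₂ _) hC0
        _ = C * C' * Q₂ ^ j := by
            rw [← hp', pow_add]
            ring
    refine (Finset.abs_sum_le_sum_abs _ _).trans ?_
    refine (Finset.sum_le_card_nsmul _ _ _ h4).trans ?_
    rw [Finset.Nat.card_antidiagonal, nsmul_eq_mul]
    have h5 : ((j + 1 : ℕ) : ℝ) ≤ 2 ^ j * 2 := by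
      have : j + 1 ≤ 2 ^ j * 2 := by
        have := Nat.lt_two_pow_self (n := j)
        omega
      exact_mod_cast this
    calc ((j + 1 : ℕ) : ℝ) * ((C * C' * Q₂ ^ j) * V) ≤ (2 ^ j * 2) * ((C * C' * Q₂ ^ j) * V) :=
          mul_le_mul_of_nonneg_right h5 (by positivity)
      _ = 2 * V * (C * C') * (Q₂ * 2) ^ j := by
          rw [mul_pow]
          ring
      _ ≤ (d + 2 * V) * (C * C') * (Q₂ * (2 * Q₁)) ^ j := by
          refine mul_le_mul ?_ ?_ (by positivity) (by positivity)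
          · exact mul_le_mul_of_nonneg_right (by linarith [Nat.cast_nonneg (α := ℝ) d])
              (by positivity)
          · refine pow_le_pow_left₀ (by positivity) ?_ _
            exact mul_le_mul_of_nonneg_left (by linarith) (by linarith)

theorem beta_submatrix {α β : Type} [Fintype α] [DecidableEq α] [Fintype β] [DecidableEq β]
    (T : ℚ[X]) (A : Matrix α α ℚ[X]) (f : β ≃ α) (n : ℕ) :
    ∀ i j, betaF T (A.submatrix f f) n i j = betaF T A n (f i) (f j) := by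
  induction n with
  | zero =>
    intro i j
    change (1 : Matrix β β ℚ[X]) i j = (1 : Matrix α α ℚ[X]) (f i) (f j)
    rw [Matrix.one_apply, Matrix.one_apply]
    by_cases h : i = j
    · rw [if_pos h, if_pos (by rw [h])]
    · rw [if_neg h, if_neg fun h' => h (f.injective h')]
  | succ n ih =>
    intro i j
    rw [betaF, betaF]
    simp only [Matrix.smul_apply, Matrix.add_apply, Matrix.sub_apply, Matrix.map_apply,
      Matrix.mul_apply, Matrix.submatrix_apply]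
    rw [ih]
    have h1 : ∑ l, betaF T (A.submatrix f f) n i l * A (f l) (f j) =
        ∑ l, betaF T A n (f i) l * A l (f j) := by
      rw [← f.sum_comp]
      exact Finset.sum_congr rfl fun l _ => by rw [ih]
    rw [h1]

theorem gm_submatrix {α β : Type} [Fintype α] [DecidableEq α] [Fintype β] [DecidableEq β]
    (T : ℚ[X]) (A : Matrix α α ℚ[X]) (f : β ≃ α) (n : ℕ) (u : ℚ) (i j : β) :
    gm T (A.submatrix f f) n u i j = gm T A n u (f i) (f j) := by
  rw [gm, gm, Matrix.of_apply, Matrix.of_apply, beta_submatrix]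

theorem gr_submatrix {α β : Type} [Fintype α] [DecidableEq α] [Fintype β] [DecidableEq β]
    {T : ℚ[X]} {A : Matrix α α ℚ[X]} (f : β ≃ α) {u : ℚ} {Q : ℝ} (h : Gr T A u Q) :
    Gr T (A.submatrix f f) u Q := by
  obtain ⟨C, hC⟩ := h
  refine ⟨C, fun N => ?_⟩
  obtain ⟨q, hq0, hq, hj⟩ := hC N
  refine ⟨q, hq0, hq, fun j hjN x y => ?_⟩
  rw [gm_submatrix]
  exact hj j hjN _ _

end Pool.Agent.Helper79.EE
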