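import Pool.Agent.Helper79.DD.Num

/-!
# EE: the size of the constants (helper79)
-/

namespace Pool.Agent.Helper79.EE

open Pool.Agent.Helper79.DD

theorem cE_PB {n : ℕ → ℕ} (hn : PB n) : PB fun δ => cE (n δ) + 3 :=
  ((hn.mul (((((PB.const 16).mul (hn.pow 3)).add
    ((PB.const 8).mul (hn.pow 2))).add ((PB.const 8).mul hn)).add (PB.const 16))).mono
      fun δ => cE_le _).add (PB.const 3)

/-- From bounds of the constants to a power of `δ + 2`. -/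
theorem num_gen {fB fE : ℕ → ℕ} (hB : EB fB) (hE : PB fE) {θ₀ C n : ℝ} (hθ₀ : 0 < θ₀)
    (hC : 0 ≤ C) :
    ∃ a : ℕ, ∀ δ X : ℕ, 1 ≤ X →
      C * (X : ℝ) ^ (n - θ₀) + C * (fB δ + 1) * (X : ℝ) ^ (n - 1 / (2 * (fE δ : ℝ) + 4)) ≤
        Real.exp (((δ : ℝ) + 2) ^ a) * (X : ℝ) ^ (n - 1 / ((δ : ℝ) + 2) ^ a) := by
  obtain ⟨a₁, h1⟩ := hB
  obtain ⟨a₂, h2⟩ := ((PB.const 2).mul hE).add (PB.const 4)
  obtain ⟨a₃, h3⟩ := exists_nat_ge (1 / θ₀)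
  obtain ⟨a₄, h4⟩ := exists_nat_ge (C + C)
  refine ⟨a₁ + a₂ + a₃ + a₄ + 1, fun δ X hX => ?_⟩
  set a : ℕ := a₁ + a₂ + a₃ + a₄ + 1 with ha
  have hX1 : (1 : ℝ) ≤ X := by exact_mod_cast hX
  have hL2 : (2 : ℝ) ≤ (δ : ℝ) + 2 := by
    have := Nat.cast_nonneg (α := ℝ) δ
    linarith
  have hL1 : (1 : ℝ) ≤ (δ : ℝ) + 2 := by linarith
  have hLa : (0 : ℝ) < ((δ : ℝ) + 2) ^ a := by positivity
  -- the first exponent
  have g1 : 1 / ((δ : ℝ) + 2) ^ a ≤ θ₀ := by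
    rw [div_le_iff₀ hLa]
    have e1 : (1 : ℝ) / θ₀ ≤ ((δ : ℝ) + 2) ^ a := by
      refine h3.trans ?_
      have e2 : (a₃ : ℝ) ≤ (2 : ℝ) ^ a₃ := by
        exact_mod_cast (Nat.lt_pow_self (by omega : 1 < 2) (n := a₃)).le
      exact e2.trans ((pow_le_pow_left₀ (by norm_num) hL2 _).trans
        (pow_le_pow_right₀ hL1 (by omega)))
    rw [div_le_iff₀ hθ₀] at e1
    linarith
  -- the second exponent
  have g2 : 1 / ((δ : ℝ) + 2) ^ a ≤ 1 / (2 * (fE δ : ℝ) + 4) := by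
    refine one_div_le_one_div_of_le (by positivity) ?_
    have e1 : (2 * (fE δ : ℝ) + 4) ≤ ((δ : ℝ) + 2) ^ a₂ := by
      exact_mod_cast h2 δ
    exact e1.trans (pow_le_pow_right₀ hL1 (by omega))
  -- the constant
  have g3 : C + C * ((fB δ : ℝ) + 1) ≤ Real.exp (((δ : ℝ) + 2) ^ a) := by
    have e1 : (fB δ : ℝ) ≤ (2 : ℝ) ^ ((δ + 2) ^ a₁) := by
      exact_mod_cast h1 δ
    have e2 : (1 : ℝ) ≤ (2 : ℝ) ^ ((δ + 2) ^ a₁) := one_le_pow₀ (by norm_num)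
    have e3 : (a₄ : ℝ) ≤ (2 : ℝ) ^ a₄ := by
      exact_mod_cast (Nat.lt_pow_self (by omega : 1 < 2) (n := a₄)).le
    have e4 : C + C * ((fB δ : ℝ) + 1) ≤ (C + C) * ((2 : ℝ) ^ ((δ + 2) ^ a₁) * 2) := by
      nlinarith
    have e5 : (C + C) * ((2 : ℝ) ^ ((δ + 2) ^ a₁) * 2) ≤
        (2 : ℝ) ^ a₄ * ((2 : ℝ) ^ ((δ + 2) ^ a₁) * 2) :=
      mul_le_mul_of_nonneg_right (h4.trans e3) (by positivity)
    have e6 : (2 : ℝ) ^ a₄ * ((2 : ℝ) ^ ((δ + 2) ^ a₁) * 2) = (2 : ℝ) ^ (a₄ + (δ + 2) ^ a₁ + 1) := by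
      rw [pow_succ, pow_add]
      ring
    have e7 : a₄ + (δ + 2) ^ a₁ + 1 ≤ (δ + 2) ^ a := by
      have f1 : (δ + 2) ^ (a₁ + (a₄ + 1)) ≤ (δ + 2) ^ a := Nat.pow_le_pow_right (by omega) (by omega)
      have f2 : (δ + 2) ^ a₁ * (a₄ + 2) ≤ (δ + 2) ^ (a₁ + (a₄ + 1)) := by
        rw [pow_add]
        refine Nat.mul_le_mul le_rfl ?_
        have f3 : a₄ + 1 < 2 ^ (a₄ + 1) := Nat.lt_pow_self (by omega)
        have f4 : 2 ^ (a₄ + 1) ≤ (δ + 2) ^ (a₄ + 1) := Nat.pow_le_pow_left (by omega) _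
        omega
      have f5 : 1 ≤ (δ + 2) ^ a₁ := Nat.one_le_pow _ _ (by omega)
      nlinarith
    have e8 : (2 : ℝ) ^ (a₄ + (δ + 2) ^ a₁ + 1) ≤ (2 : ℝ) ^ ((δ + 2) ^ a) :=
      pow_le_pow_right₀ (by norm_num) e7
    have e9 : (2 : ℝ) ^ ((δ + 2) ^ a) ≤ Real.exp (((δ : ℝ) + 2) ^ a) := by
      have f1 : (2 : ℝ) ≤ Real.exp 1 := by
        have := Real.add_one_le_exp (1 : ℝ)
        linarith
      have f2 : Real.exp (((δ : ℝ) + 2) ^ a) = Real.exp 1 ^ ((δ + 2) ^ a) := by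
        rw [← Real.exp_nat_mul, mul_one]
        congr 1
        push_cast
        rfl
      rw [f2]
      exact pow_le_pow_left₀ (by norm_num) f1 _
    linarith
  have hXn : ∀ x y : ℝ, y ≤ x → (X : ℝ) ^ (n - x) ≤ (X : ℝ) ^ (n - y) := fun x y hxy =>
    Real.rpow_le_rpow_of_exponent_le hX1 (by linarith)
  have k1 := mul_le_mul_of_nonneg_left (hXn _ _ g1) hC
  have k2 := mul_le_mul_of_nonneg_left (hXn _ _ g2)
    (by positivity : 0 ≤ C * ((fB δ : ℝ) + 1))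
  have k3 := mul_le_mul_of_nonneg_right g3
    (Real.rpow_nonneg (by positivity : (0 : ℝ) ≤ X) (n - 1 / ((δ : ℝ) + 2) ^ a))
  calc _ ≤ (C + C * ((fB δ : ℝ) + 1)) * (X : ℝ) ^ (n - 1 / ((δ : ℝ) + 2) ^ a) := by
        rw [add_mul]
        exact add_le_add k1 k2
    _ ≤ _ := k3

end Pool.Agent.Helper79.EE
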