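import Pool.Agent.Helper79.DD.SymBad
import Pool.Agent.Helper79.AA.UDefs

/-!
# EE: the system of the classes of words in one variable (helper79)
-/

open Polynomial

namespace Pool.Agent.Helper79.EE

open Pool.Agent.Helper79.CU Pool.Agent.Helper79.AA Pool.Agent.Helper79.DD
  Pool.Agent.Helper64.Per

section

variable {κ : IntermediateField ℚ Qbar} {W W' : Type} [Fintype W] [DecidableEq W]
  [Fintype W'] [DecidableEq W'] {π : W → W'} {σ : W' → W} (hσ : ∀ s, π (σ s) = s)
  {U : Set ℂ} {z : ℂ → W → ℂ} (hz : ∀ t ∈ U, ∀ I, z t I = z t (σ (π I)))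

include hσ hz

theorem kbad_qE {x₀ : ℂ} (hx₀ : x₀ ∈ U) (h : KBad κ U z x₀) :
    KBad κ U (fun t s => z t (σ s)) x₀ := by
  obtain ⟨g, hg, hno⟩ := h
  set g' : W' → κ[X] := fun s => ∑ I, if π I = s then g I else 0 with hg'
  have hsum : ∀ t ∈ U, ∑ s, aeval t (g' s) * z t (σ s) = ∑ I, aeval t (g I) * z t I := by
    intro t ht
    have e1 : ∀ s, aeval t (g' s) * z t (σ s) =
        ∑ I, if π I = s then aeval t (g I) * z t (σ s) else 0 := by
      intro s
      rw [hg']
      simp only
      rw [map_sum, Finset.sum_mul]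
      refine Finset.sum_congr rfl fun I _ => ?_
      split_ifs
      · rfl
      · rw [map_zero, zero_mul]
    rw [Finset.sum_congr rfl fun s _ => e1 s, Finset.sum_comm]
    refine Finset.sum_congr rfl fun I _ => ?_
    rw [Finset.sum_ite_eq Finset.univ (π I), if_pos (Finset.mem_univ _), ← hz t ht I]
  refine ⟨g', by rw [hsum x₀ hx₀, hg], ?_⟩
  rintro ⟨h', h1, h2⟩
  apply hno
  refine ⟨fun I => g I + if I = σ (π I) then h' (π I) - g' (π I) else 0, fun I => ?_,
    fun t ht => ?_⟩
  · rw [map_add]
    split_ifs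
    · rw [map_sub, h1, sub_self, add_zero]
    · rw [map_zero, add_zero]
  · have e2 : ∀ I, aeval t (g I + if I = σ (π I) then h' (π I) - g' (π I) else 0) *
        z t I = aeval t (g I) * z t I +
          ∑ s, if I = σ s then aeval t (h' s - g' s) * z t (σ s) else 0 := by
      intro I
      rw [map_add, add_mul]
      congr 1
      by_cases hI : I = σ (π I)
      · rw [if_pos hI, Finset.sum_eq_single (π I), if_pos hI, ← hI]
        · intro s _ hs
          rw [if_neg]
          intro h3
          apply hs
          rw [h3, hσ]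
        · intro h3
          exact absurd (Finset.mem_univ _) h3
      · rw [if_neg hI, map_zero, zero_mul]
        symm
        refine Finset.sum_eq_zero fun s _ => ?_
        rw [if_neg]
        intro h3
        apply hI
        rw [h3, hσ]
    rw [Finset.sum_congr rfl fun I _ => e2 I, Finset.sum_add_distrib, ← hsum t ht,
      Finset.sum_comm]
    have e3 : ∀ s, ∑ I, (if I = σ s then aeval t (h' s - g' s) * z t (σ s) else 0) =
        aeval t (h' s) * z t (σ s) - aeval t (g' s) * z t (σ s) := by
      intro s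
      rw [Finset.sum_ite_eq' Finset.univ (σ s), if_pos (Finset.mem_univ _), map_sub, sub_mul]
    rw [Finset.sum_congr rfl fun s _ => e3 s, Finset.sum_sub_distrib, h2 t ht]
    ring

omit [DecidableEq W] [Fintype W'] hσ in
/-- The system of the classes. -/
theorem sys_qE {T : κ[X]} {A : Matrix W W κ[X]}
    [Fintype W'] (hode : ∀ t ∈ U, ∀ I, aeval t T * deriv (fun t => z t I) t =
      ∑ J, aeval t (A I J) * z t J) : ∀ t ∈ U, ∀ (c : W'),
    aeval t T * deriv (fun t => z t (σ c)) t =
      ∑ c', aeval t (qM π σ A c c') * z t (σ c') := by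
  intro t ht c
  rw [hode t ht]
  have e1 : ∀ c', aeval t (qM π σ A c c') * z t (σ c') =
      ∑ J, if π J = c' then aeval t (A (σ c) J) * z t (σ c') else 0 := by
    intro c'
    unfold qM
    rw [map_sum, Finset.sum_mul]
    refine Finset.sum_congr rfl fun J _ => ?_
    split_ifs
    · rfl
    · rw [map_zero, zero_mul]
  rw [Finset.sum_congr rfl fun c' _ => e1 c', Finset.sum_comm]
  refine Finset.sum_congr rfl fun J _ => ?_
  rw [Finset.sum_ite_eq Finset.univ (π J), if_pos (Finset.mem_univ _), ← hz t ht J]

end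

end Pool.Agent.Helper79.EE
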