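import Pool.Agent.Helper79.EE.UniT
import Pool.Agent.Helper79.EE.Count
import Pool.Agent.Helper79.EE.SymBad
import Pool.Agent.Helper79.EE.Num
import Pool.Agent.Helper79.AA.Main2
import Pool.Agent.Helper79.DD.MainU

/-!
# EE: assembly (helper79)
-/

open Polynomial

namespace Pool.Agent.Helper79.EE

open Pool.Agent.Helper79.GX Pool.Agent.Helper64.Per Pool.Agent.Helper79.GA Pool.Agent.Helper79.CU
  Pool.Agent.Helper79.AA Pool.Agent.Helper79.DD

theorem CoreC.mono {n n' c B E : ℕ} (h : CoreC n c B E) (hn : n' ≤ n) : CoreC n' c B E := by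
  intro ι _ _ hι
  exact h (hι.trans hn)

theorem tame_letters {k K : Type} [Field k] [Field K] [CharZero K] [Algebra k K] {u : K}
    {D : Derivation ℚ K K} [CharZero k] (hu : RatX k u D) {T : k[X]} {μ : ℕ} {ι : Type}
    [Fintype ι] [DecidableEq ι] {B : Matrix (Fin μ × ι) (Fin μ × ι) k[X]}
    (h : TameM D (fun i j => aeval u (B i j) / aeval u T)) :
    TameM D (fun i j => aeval u (wm B i j) / aeval u T) := by
  have h1 := tame_submatrix (tame_words hu h 1) (Equiv.funUnique (Fin 1) (Al μ ι)).symm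
  have h2 : Matrix.submatrix (fun r r' => aeval u (tens 1 (wm B) r r') / aeval u T)
      (Equiv.funUnique (Fin 1) (Al μ ι)).symm (Equiv.funUnique (Fin 1) (Al μ ι)).symm =
      fun r r' => aeval u (wm B r r') / aeval u T := by
    funext r r'
    change aeval u (tens 1 (wm B) (fun _ => r) (fun _ => r')) / aeval u T = _
    rw [tens_one_apply]
  rw [h2] at h1
  exact h1

/-- Finitely many bounds of the same form. -/
theorem combine {N : ℕ} {θ C : Fin N → ℝ} (hθ : ∀ k, 0 < θ k) (hC : ∀ k, 0 ≤ C k) {n : ℝ}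
    (hn : 1 ≤ n) : ∃ θ₀ C₀ : ℝ, 0 < θ₀ ∧ 0 ≤ C₀ ∧ ∀ (X : ℕ) (b x : ℝ) (g : Fin N → ℝ), 1 ≤ X →
      0 ≤ b → (∀ k, g k ≤ C k * (X : ℝ) ^ (n - θ k) + C k * b * (X : ℝ) ^ (n - x)) →
      ∑ k, g k + 1 ≤ C₀ * (X : ℝ) ^ (n - θ₀) + C₀ * b * (X : ℝ) ^ (n - x) := by
  set s : ℝ := ∑ k, 1 / θ k with hs
  have hs0 : 0 ≤ s := Finset.sum_nonneg fun k _ => (one_div_pos.2 (hθ k)).le
  have hS0 : 0 ≤ ∑ k, C k := Finset.sum_nonneg fun k _ => hC k
  refine ⟨1 / (s + 1), ∑ k, C k + 1, by positivity, by positivity, ?_⟩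
  intro X b x g hX hb hg
  have hX1 : (1 : ℝ) ≤ X := by exact_mod_cast hX
  have h1 : ∀ k, 1 / (s + 1) ≤ θ k := by
    intro k
    have h2 : 1 / θ k ≤ s := Finset.single_le_sum (f := fun k => 1 / θ k)
      (fun k _ => (one_div_pos.2 (hθ k)).le) (Finset.mem_univ k)
    rw [div_le_iff₀ (by positivity)]
    rw [div_le_iff₀ (hθ k)] at h2
    have := hθ k
    nlinarith
  have h2 : ∀ k, g k ≤ C k * ((X : ℝ) ^ (n - 1 / (s + 1)) + b * (X : ℝ) ^ (n - x)) := by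
    intro k
    refine (hg k).trans ?_
    have h3 : (X : ℝ) ^ (n - θ k) ≤ (X : ℝ) ^ (n - 1 / (s + 1)) :=
      Real.rpow_le_rpow_of_exponent_le hX1 (by linarith [h1 k])
    have h4 := mul_le_mul_of_nonneg_left h3 (hC k)
    linarith
  have h3 := Finset.sum_le_sum fun k (_ : k ∈ Finset.univ) => h2 k
  rw [← Finset.sum_mul] at h3
  have h4 : (1 : ℝ) ≤ (X : ℝ) ^ (n - 1 / (s + 1)) := by
    refine Real.one_le_rpow hX1 ?_
    have h5 : 1 / (s + 1) ≤ 1 := by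
      rw [div_le_iff₀ (by positivity)]
      linarith
    linarith
  have h5 : 0 ≤ b * (X : ℝ) ^ (n - x) := by positivity
  linarith

/-- The theorem, with the constants of the core theorem. -/
theorem mainE₀ {κ : IntermediateField ℚ Qbar} [FiniteDimensional ℚ κ] {T : κ[X]}
    (hT : T ≠ 0) {ι₀ : Type} [Fintype ι₀] [DecidableEq ι₀] {A₀ : Matrix ι₀ ι₀ κ[X]}
    (hA₀ : MobTame T A₀) {μ r : ℕ} {ι : Type} [Fintype ι] [DecidableEq ι] [Nonempty ι]
    (E : SubTensor T A₀ μ r ι) {U : Set ℂ} (hU : IsOpen U) (hU' : IsPreconnected U)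
    {w : ℂ → ℂ} (hw : IsBranchOf κ U μ w) {P : ℂ → Matrix ι ι ℂ} (hP : IsPeriodST E U w P)
    (hdet : ∀ t ∈ U, IsUnit (P t).det) {V : Set ℂ} (hV : FinConvexCover U V) {J : Type}
    [Fintype J] (ω : Module.Basis J ℚ κ) {D : ℕ} (hD : 1 ≤ D) :
    ∃ (θ₀ C : ℝ) (N₁ s c₁ : ℕ), 0 < θ₀ ∧ 0 ≤ C ∧ ∀ δ X : ℕ, 1 ≤ X →
      ((RelPoly ω U V w P δ D X).ncard : ℝ) ≤
        C * (X : ℝ) ^ ((Fintype.card (Fin (D + 1) × J) : ℝ) - θ₀) +
        C * ((cB (c₁ * (δ + 1)) (N₁ * (δ + 2) ^ s) : ℝ) + 1) *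
          (X : ℝ) ^ ((Fintype.card (Fin (D + 1) × J) : ℝ) -
            1 / (2 * ((cE (N₁ * (δ + 2) ^ s) + 3 : ℕ) : ℝ) + 4)) := by
  classical
  obtain ⟨N, Wk, hWk, hVW⟩ := hV
  obtain ⟨g', Vs, cc, hVs, hPV⟩ := hP
  obtain ⟨f, hf⟩ := hw.eqn
  have hJ : Nonempty J := ω.index_nonempty
  obtain ⟨j₀⟩ := hJ
  rcases U.eq_empty_or_nonempty with hUe | ⟨t₁, ht₁⟩
  · have hVe : V = ∅ := by
      rw [Set.eq_empty_iff_forall_notMem]
      intro t ht
      obtain ⟨k, hk⟩ := Set.mem_iUnion.1 (hVW ht)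
      have := (hWk k).2.2 hk
      rw [hUe] at this
      exact this
    refine ⟨1, 0, 0, 0, 0, one_pos, le_rfl, fun δ X _ => ?_⟩
    have : RelPoly ω U V w P δ D X = ∅ := by
      rw [Set.eq_empty_iff_forall_notMem]
      rintro a ⟨_, t, ht, _⟩
      rw [hVe] at ht
      exact ht
    rw [this, Set.ncard_empty, Nat.cast_zero]
    simp
  have hμ : 0 < μ := by
    rcases Nat.eq_zero_or_pos μ with h0 | h0
    · subst h0
      have h1 := hf _ ht₁
      simp at h1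
    · exact h0
  -- the functions `W = M V^{⊗ r} c`
  set W : ℂ → Matrix (Fin μ × ι) ι ℂ := fun t p k =>
    ∑ I, aeval t (E.M p I) * (tpow r (Vs t) * cc) I k with hW
  have hWP : ∀ t ∈ U, ∀ (l : Fin μ) (x y : ι), w t ^ (l : ℕ) * P t x y = W t (l, x) y := hPV
  have hWode : ∀ t ∈ U, ∀ p k, DifferentiableAt ℂ (fun t => W t p k) t ∧
      aeval t T * deriv (fun t => W t p k) t = ∑ q, aeval t (E.B p q) * W t q k := by
    intro t ht p k
    exact sub_ode (fun i k => (hVs t ht i k).1) (fun i k => (hVs t ht i k).2) E.stable cc p k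
  have hPan : ∀ x y, AnalyticOnNhd ℂ (fun t => P t x y) U := by
    intro x y
    refine DifferentiableOn.analyticOnNhd (fun t ht => ?_) hU
    have h1 : (fun t => P t x y) =ᶠ[nhds t] fun t => W t (⟨0, by omega⟩, x) y := by
      filter_upwards [hU.mem_nhds ht] with z hz
      have := hWP z hz ⟨0, by omega⟩ x y
      rwa [pow_zero, one_mul] at this
    exact (((hWode t ht _ _).1).congr_of_eventuallyEq h1).differentiableWithinAt
  have hode : ∀ t ∈ U, ∀ (p : Fin μ × ι) (k : ι),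
      aeval t T * deriv (fun t => w t ^ (p.1 : ℕ) * P t p.2 k) t =
        ∑ q, aeval t (E.B p q) * (w t ^ (q.1 : ℕ) * P t q.2 k) := by
    intro t ht p k
    have h1 : (fun t => w t ^ (p.1 : ℕ) * P t p.2 k) =ᶠ[nhds t] fun t => W t p k := by
      filter_upwards [hU.mem_nhds ht] with z hz
      exact hWP z hz p.1 p.2 k
    rw [h1.deriv_eq, (hWode t ht p k).2]
    exact Finset.sum_congr rfl fun q _ => by rw [← hWP t ht q.1 q.2 k]
  -- the universal system of the letters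
  obtain ⟨K, _, _, _, u, Du, hu, hta⟩ := sub_tame hT hA₀ E
  obtain ⟨𝔇⟩ := exists_uniE ω hD j₀ hT hu (tame_letters hu hta)
  set n : ℕ := Fintype.card (Fin (D + 1) × J) with hn
  have hn1 : 1 ≤ n := Fintype.card_pos_iff.2 ⟨(0, j₀)⟩
  have hcount := fun k : Fin N => countE ω (T := T) hD hT hU hU' (hWk k).1 (hWk k).2.1
    (hWk k).2.2 𝔇.Θ_ne j₀
  choose θ Ck hθ hCk hcount using hcount
  obtain ⟨θ₀, C₀, hθ₀, hC₀, hcomb⟩ := combine hθ hCk (n := (n : ℝ)) (by exact_mod_cast hn1)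
  refine ⟨θ₀, C₀, Fintype.card 𝔇.Γ, Fintype.card (Al μ ι), 2 * (𝔇.c + 1), hθ₀, hC₀,
    fun δ X hX => ?_⟩
  set ρ : ℕ := δ + 1 with hρ
  -- the words
  have hzan : ∀ α : Fin ρ → Al μ ι, AnalyticOnNhd ℂ (fun t => wd ρ (w t) (P t) α) U := fun α =>
    words_analytic hw.analytic hPan ρ α
  have hzode : ∀ t ∈ U, ∀ α : Fin ρ → Al μ ι, aeval t T * deriv (fun t => wd ρ (w t) (P t) α) t =
      ∑ α', aeval t (tens ρ (wm E.B) α α') * wd ρ (w t) (P t) α' := fun t ht α =>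
    words_ode hU hw.analytic hPan hode ρ α ht
  have hsym : ∀ t ∈ U, ∀ I : Fin ρ → Al μ ι, wd ρ (w t) (P t) I = wd ρ (w t) (P t) (rep (cls I)) :=
    fun t _ I => wd_sym ρ _ _ I
  set 𝔈 := quoU (𝔇.tens δ) (cls (β := Al μ ι) (r := ρ)) rep cls_rep
    (tensG_qinv ρ 𝔇.C 𝔇.M) with h𝔈
  have hcard : Fintype.card (𝔈.Γ × Wt (Al μ ι) ρ) ≤
      Fintype.card 𝔇.Γ * (δ + 2) ^ Fintype.card (Al μ ι) := by
    rw [Fintype.card_prod]
    exact Nat.mul_le_mul le_rfl (card_Wt ρ)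
  have hc : 2 * 𝔈.c = 2 * (𝔇.c + 1) * (δ + 1) := by
    change 2 * ((𝔇.c + 1) * (δ + 1)) = _
    ring
  have hcore : CoreC (Fintype.card (𝔈.Γ × Wt (Al μ ι) ρ)) (2 * 𝔈.c)
      (cB (2 * (𝔇.c + 1) * (δ + 1)) (Fintype.card 𝔇.Γ * (δ + 2) ^ Fintype.card (Al μ ι)))
      (cE (Fintype.card 𝔇.Γ * (δ + 2) ^ Fintype.card (Al μ ι)) + 3) := by
    rw [hc]
    exact CoreC.mono (coreX _ _) hcard
  set Sk : Fin N → Set (Ix D J → ℤ) := fun k => {a : Ix D J → ℤ | (∀ i, |a i| ≤ X) ∧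
      ∃ t ∈ Wk k, Fv (fun j => ω j) (fun i => (a i : ℂ)) t = 0 ∧
        KBad κ U (fun t s => wd (μ := μ) ρ (w t) (P t) (rep s)) t} with hSk
  have hmain := hcomb X ((cB (2 * (𝔇.c + 1) * (δ + 1))
      (Fintype.card 𝔇.Γ * (δ + 2) ^ Fintype.card (Al μ ι)) : ℝ) + 1)
    (1 / (2 * ((cE (Fintype.card 𝔇.Γ * (δ + 2) ^ Fintype.card (Al μ ι)) + 3 : ℕ) : ℝ) + 4))
    (fun k => ((Sk k).ncard : ℝ)) hX (by positivity) fun k =>
      hcount k (Wt (Al μ ι) ρ) _ 𝔈 (fun t s => wd (μ := μ) ρ (w t) (P t) (rep s)) rfl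
        (fun s => hzan (rep s)) (sys_qE hsym hzode) _ _ hcore X hX
  refine le_trans ?_ hmain
  set Y : Set (Ix D J → ℤ) := {a | ∀ j, |a j| ≤ X} with hY
  have hYf : Y.Finite := (box_card X Y fun a ha => ha).1
  have hsub : RelPoly ω U V w P δ D X ⊆ (⋃ k ∈ Finset.univ, Sk k) ∪ {0} := by
    rintro a ⟨ha, t, htV, hFt, hrel⟩
    by_cases ha0 : a = 0
    · exact Or.inr ha0
    refine Or.inl ?_
    obtain ⟨k, hk⟩ := Set.mem_iUnion.1 (hVW htV)
    rw [Set.mem_iUnion₂]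
    refine ⟨k, Finset.mem_univ k, ha, t, hk, hFt, ?_⟩
    have htU : t ∈ U := (hWk k).2.2 hk
    refine kbad_qE cls_rep hsym htU (kbad_of_rel hf htU ?_ (hdet t htU) hrel)
    -- `t` is algebraic
    set p : κ[X] := ∑ i : Ix D J, C ((a i : κ) * ω i.2) * Polynomial.X ^ (i.1 : ℕ) with hp
    have hpt : aeval t p = 0 := by
      rw [← hFt, hp, map_sum]
      unfold polyVal
      refine Finset.sum_congr rfl fun i _ => ?_
      rw [map_mul, aeval_C, map_pow, aeval_X, map_mul, map_intCast]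
    have hp0 : p ≠ 0 := by
      intro h0
      obtain ⟨⟨k₀, j₁⟩, hk₀⟩ : ∃ i, a i ≠ 0 := by
        by_contra hcon
        push Not at hcon
        exact ha0 (funext hcon)
      have h3 := congrArg (fun q => coeff q (k₀ : ℕ)) h0
      simp only [hp, finsetSum_coeff, coeff_C_mul, coeff_X_pow, coeff_zero] at h3
      rw [Fintype.sum_prod_type, Finset.sum_eq_single k₀] at h3
      · simp only [if_true, mul_one] at h3
        have h4 : ∑ j, ((a (k₀, j) : ℤ) : ℚ) • ω j = 0 := by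
          rw [← h3]
          refine Finset.sum_congr rfl fun j _ => ?_
          rw [Algebra.smul_def, map_intCast]
        have h5 := Fintype.linearIndependent_iff.1 ω.linearIndependent _ h4 j₁
        exact hk₀ (by exact_mod_cast h5)
      · intro b _ hb
        refine Finset.sum_eq_zero fun j _ => ?_
        rw [if_neg, mul_zero]
        intro h
        exact hb (Fin.ext h.symm)
      · intro h
        exact absurd (Finset.mem_univ _) h
    have h3 : IsAlgebraic κ t := ⟨p, hp0, hpt⟩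
    have : Algebra.IsAlgebraic ℚ κ := inferInstance
    exact IsAlgebraic.restrictScalars ℚ h3
  have hSkf : (⋃ k ∈ Finset.univ, Sk k).Finite :=
    Finset.univ.finite_toSet.biUnion fun k _ => hYf.subset fun a ha => ha.1
  have h3 := Set.ncard_le_ncard hsub (hSkf.union (Set.finite_singleton _))
  have h4 := Set.ncard_union_le (⋃ k ∈ Finset.univ, Sk k) {(0 : Ix D J → ℤ)}
  have h5 : (⋃ k ∈ Finset.univ, Sk k).ncard ≤ ∑ k : Fin N, (Sk k).ncard :=
    Finset.set_ncard_biUnion_le Finset.univ Sk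
  rw [Set.ncard_singleton] at h4
  have h6 : (RelPoly ω U V w P δ D X).ncard ≤ ∑ k : Fin N, (Sk k).ncard + 1 := by omega
  exact_mod_cast h6

/-- The theorem on the roots of polynomials, uniform in the degree of the relations. -/
theorem mainE {κ : IntermediateField ℚ Qbar} [FiniteDimensional ℚ κ] {T : κ[X]}
    (hT : T ≠ 0) {ι₀ : Type} [Fintype ι₀] [DecidableEq ι₀] {A₀ : Matrix ι₀ ι₀ κ[X]}
    (hA₀ : MobTame T A₀) {μ r : ℕ} {ι : Type} [Fintype ι] [DecidableEq ι] [Nonempty ι]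
    (E : SubTensor T A₀ μ r ι) {U : Set ℂ} (hU : IsOpen U) (hU' : IsPreconnected U)
    {w : ℂ → ℂ} (hw : IsBranchOf κ U μ w) {P : ℂ → Matrix ι ι ℂ} (hP : IsPeriodST E U w P)
    (hdet : ∀ t ∈ U, IsUnit (P t).det) {V : Set ℂ} (hV : FinConvexCover U V) {J : Type}
    [Fintype J] (ω : Module.Basis J ℚ κ) {D : ℕ} (hD : 1 ≤ D) :
    ∃ a : ℕ, ∀ δ X : ℕ, 1 ≤ X → ((RelPoly ω U V w P δ D X).ncard : ℝ) ≤
      Real.exp (((δ : ℝ) + 2) ^ a) *
        (X : ℝ) ^ ((((D + 1) * Module.finrank ℚ κ : ℕ) : ℝ) - 1 / ((δ : ℝ) + 2) ^ a) := by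
  obtain ⟨θ₀, C, N₁, s, c₁, hθ₀, hC, h⟩ := mainE₀ hT hA₀ E hU hU' hw hP hdet hV ω hD
  have hn : PB fun δ => N₁ * (δ + 2) ^ s := (PB.const N₁).mul (PB.base.pow s)
  have hc : PB fun δ => c₁ * (δ + 1) :=
    (PB.const c₁).mul (PB.base.mono fun δ => Nat.le_succ (δ + 1))
  obtain ⟨a, ha⟩ := num_gen (n := (Fintype.card (Fin (D + 1) × J) : ℝ)) (cB_EB hc hn) (cE_PB hn)
    hθ₀ hC
  rw [Module.finrank_eq_card_basis ω]
  have hcd : Fintype.card (Fin (D + 1) × J) = (D + 1) * Fintype.card J := by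
    rw [Fintype.card_prod, Fintype.card_fin]
  rw [← hcd]
  exact ⟨a, fun δ X hX => (h δ X hX).trans (ha δ X hX)⟩

end Pool.Agent.Helper79.EE
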