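import Pool.Agent.Helper79.DD.Sym

/-!
# EE: tensor powers of a push-forward with a basis that is not constant (helper79)
-/

open Polynomial

namespace Pool.Agent.Helper79.EE

open Pool.Agent.Helper79.CU Pool.Agent.Helper79.SE Pool.Agent.Helper79.GA Pool.Agent.Helper79.AA
  Pool.Agent.Helper79.DD

/-- The matrix of a tensor power: `C` acts on the basis, `M` on the factors. -/
def tensG {R Γ β : Type} [CommRing R] [DecidableEq β] (r : ℕ) (C : Matrix Γ Γ R)
    (M : Matrix (Γ × β) (Γ × β) R) : Matrix (Γ × (Fin r → β)) (Γ × (Fin r → β)) R :=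
  fun x y => (if x.2 = y.2 then C x.1 y.1 else 0) + tensB r M x y

/-- The matrix of the system itself. -/
def addG {R Γ β : Type} [CommRing R] [DecidableEq β] (C : Matrix Γ Γ R)
    (M : Matrix (Γ × β) (Γ × β) R) : Matrix (Γ × β) (Γ × β) R :=
  fun x y => (if x.2 = y.2 then C x.1 y.1 else 0) + M x y

/-- The iterates of the tensor powers are products. -/
def StarG {σ Γ β : Type} [DecidableEq σ] [Fintype Γ] [DecidableEq Γ] [Fintype β] [DecidableEq β]
    (i₀ : σ) (Θ : MvPolynomial σ ℚ) (C : Matrix Γ Γ (MvPolynomial σ ℚ))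
    (M : Matrix (Γ × β) (Γ × β) (MvPolynomial σ ℚ)) : Prop :=
  ∃ (γ₀ : Γ) (ν : Γ → Γ → Γ → MvPolynomial σ ℚ),
  ∀ (r n : ℕ) (γ γ' : Γ) (I J : Fin (r + 1) → β),
    Θ * mbeta i₀ Θ (tensG (r + 1) C M) n (γ, I) (γ', J) =
      ∑ p ∈ Finset.HasAntidiagonal.antidiagonal n, ∑ γ₂, ∑ γ₃,
        mbeta i₀ Θ (addG C M) p.1 (γ₀, I 0) (γ₂, J 0) *
        mbeta i₀ Θ (tensG r C M) p.2 (γ, Fin.tail I) (γ₃, Fin.tail J) * ν γ₂ γ₃ γ'

section

variable {K : Type} [Field K] [CharZero K] (D : Derivation ℚ K K)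

/-- The Taylor coefficients of `x z`, where `D z = a z`. -/
noncomputable def tw {ι : Type} [Fintype ι] [DecidableEq ι] (a : Matrix ι ι K) (x : K) :
    ℕ → Matrix ι ι K
  | 0 => Matrix.of fun i j => if i = j then x else 0
  | (n + 1) => Matrix.of fun i j => (((n + 1 : ℕ) : K)⁻¹) *
      (D (tw a x n i j) + ∑ l, tw a x n i l * a l j)

theorem tw_zero {ι : Type} [Fintype ι] [DecidableEq ι] (a : Matrix ι ι K) (x : K) (i j : ι) :
    tw D a x 0 i j = if i = j then x else 0 := rfl

theorem tw_succ {ι : Type} [Fintype ι] [DecidableEq ι] (a : Matrix ι ι K) (x : K) (n : ℕ)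
    (i j : ι) : ((n + 1 : ℕ) : K) * tw D a x (n + 1) i j =
      D (tw D a x n i j) + ∑ l, tw D a x n i l * a l j := by
  have h0 : ((n + 1 : ℕ) : K) ≠ 0 := Nat.cast_ne_zero.2 (Nat.succ_ne_zero n)
  rw [tw, Matrix.of_apply, ← mul_assoc, mul_inv_cancel₀ h0, one_mul]

/-- Constants. -/
theorem tw_const {ι : Type} [Fintype ι] [DecidableEq ι] (a : Matrix ι ι K) {c : K} (hc : D c = 0)
    (x : K) (n : ℕ) (i j : ι) : tw D a (c * x) n i j = c * tw D a x n i j := by
  induction n generalizing j with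
  | zero =>
    rw [tw_zero, tw_zero]
    split_ifs
    · rfl
    · rw [mul_zero]
  | succ n ih =>
    have h0 : ((n + 1 : ℕ) : K) ≠ 0 := Nat.cast_ne_zero.2 (Nat.succ_ne_zero n)
    apply mul_left_cancel₀ h0
    rw [mul_left_comm, tw_succ, tw_succ, ih, Derivation.leibniz, hc, smul_zero, add_zero,
      smul_eq_mul, mul_add, Finset.mul_sum]
    congr 1
    refine Finset.sum_congr rfl fun l _ => ?_
    rw [ih]
    ring

/-- The Taylor coefficients of products. -/
theorem tw_tens {ι : Type} [Fintype ι] [DecidableEq ι] (a : Matrix ι ι K) (r : ℕ) (x y : K)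
    (n : ℕ) (I J : Fin (r + 1) → ι) : tw D (tens (r + 1) a) (x * y) n I J =
      ∑ p ∈ Finset.HasAntidiagonal.antidiagonal n, tw D a x p.1 (I 0) (J 0) *
        tw D (tens r a) y p.2 (Fin.tail I) (Fin.tail J) := by
  induction n generalizing J with
  | zero =>
    rw [Finset.Nat.antidiagonal_zero, Finset.sum_singleton, tw_zero, tw_zero, tw_zero]
    by_cases h : I = J
    · subst h
      simp
    · rw [if_neg h]
      by_cases h0 : I 0 = J 0
      · have h1 : Fin.tail I ≠ Fin.tail J := by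
          intro h1
          apply h
          rw [← Fin.cons_self_tail I, ← Fin.cons_self_tail J, h0, h1]
        rw [if_neg h1, mul_zero]
      · rw [if_neg h0, zero_mul]
  | succ n ih =>
    have h0 : ((n + 1 : ℕ) : K) ≠ 0 := Nat.cast_ne_zero.2 (Nat.succ_ne_zero n)
    apply mul_left_cancel₀ h0
    rw [tw_succ, ih, map_sum]
    -- the sum over the tensor indices
    have e1 : ∑ L : Fin (r + 1) → ι, tw D (tens (r + 1) a) (x * y) n I L * tens (r + 1) a L J =
        ∑ p ∈ Finset.HasAntidiagonal.antidiagonal n,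
          ((∑ l, tw D a x p.1 (I 0) l * a l (J 0)) *
            tw D (tens r a) y p.2 (Fin.tail I) (Fin.tail J) +
          tw D a x p.1 (I 0) (J 0) *
            ∑ L', tw D (tens r a) y p.2 (Fin.tail I) L' * tens r a L' (Fin.tail J)) := by
      rw [← (Fin.consEquiv (fun _ : Fin (r + 1) => ι)).sum_comp, Fintype.sum_prod_type]
      have e2 : ∀ (l : ι) (L' : Fin r → ι),
          tw D (tens (r + 1) a) (x * y) n I (Fin.consEquiv (fun _ : Fin (r + 1) => ι) (l, L')) *
            tens (r + 1) a (Fin.consEquiv (fun _ : Fin (r + 1) => ι) (l, L')) J =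
          ∑ p ∈ Finset.HasAntidiagonal.antidiagonal n,
            ((if L' = Fin.tail J then tw D a x p.1 (I 0) l * a l (J 0) *
                tw D (tens r a) y p.2 (Fin.tail I) L' else 0) +
              (if l = J 0 then tw D a x p.1 (I 0) l *
                (tw D (tens r a) y p.2 (Fin.tail I) L' * tens r a L' (Fin.tail J)) else 0)) := by
        intro l L'
        have hc : Fin.consEquiv (fun _ : Fin (r + 1) => ι) (l, L') =
            (Fin.cons l L' : Fin (r + 1) → ι) := rfl
        rw [hc, ih, tens_succ, Finset.sum_mul]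
        refine Finset.sum_congr rfl fun p _ => ?_
        rw [Fin.cons_zero, Fin.tail_cons]
        split_ifs <;> ring
      simp only [e2]
      rw [Finset.sum_congr rfl fun l _ => Finset.sum_comm, Finset.sum_comm]
      refine Finset.sum_congr rfl fun p _ => ?_
      simp only [Finset.sum_add_distrib]
      congr 1
      · rw [Finset.sum_mul]
        refine Finset.sum_congr rfl fun l _ => ?_
        rw [Finset.sum_ite_eq' Finset.univ (Fin.tail J)]
        simp
      · rw [Finset.sum_comm, Finset.mul_sum]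
        refine Finset.sum_congr rfl fun L' _ => ?_
        rw [Finset.sum_ite_eq' Finset.univ (J 0)]
        simp
    rw [e1, ← Finset.sum_add_distrib]
    have e3 : ∀ p ∈ Finset.HasAntidiagonal.antidiagonal n,
        D (tw D a x p.1 (I 0) (J 0) * tw D (tens r a) y p.2 (Fin.tail I) (Fin.tail J)) +
        ((∑ l, tw D a x p.1 (I 0) l * a l (J 0)) *
            tw D (tens r a) y p.2 (Fin.tail I) (Fin.tail J) +
          tw D a x p.1 (I 0) (J 0) *
            ∑ L', tw D (tens r a) y p.2 (Fin.tail I) L' * tens r a L' (Fin.tail J)) =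
        ((p.1 + 1 : ℕ) : K) * tw D a x (p.1 + 1) (I 0) (J 0) *
          tw D (tens r a) y p.2 (Fin.tail I) (Fin.tail J) +
        tw D a x p.1 (I 0) (J 0) *
          (((p.2 + 1 : ℕ) : K) * tw D (tens r a) y (p.2 + 1) (Fin.tail I) (Fin.tail J)) := by
      intro p _
      rw [tw_succ, tw_succ, Derivation.leibniz, smul_eq_mul, smul_eq_mul]
      ring
    rw [Finset.sum_congr rfl e3]
    -- the combinatorial identity
    set f : ℕ → K := fun j => tw D a x j (I 0) (J 0) with hf
    set g : ℕ → K := fun j => tw D (tens r a) y j (Fin.tail I) (Fin.tail J) with hg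
    have key : ∑ p ∈ Finset.HasAntidiagonal.antidiagonal n,
        (((p.1 + 1 : ℕ) : K) * f (p.1 + 1) * g p.2 + f p.1 * (((p.2 + 1 : ℕ) : K) * g (p.2 + 1))) =
        ((n + 1 : ℕ) : K) * ∑ p ∈ Finset.HasAntidiagonal.antidiagonal (n + 1), f p.1 * g p.2 := by
      have h1 : ((n + 1 : ℕ) : K) * ∑ p ∈ Finset.HasAntidiagonal.antidiagonal (n + 1),
          f p.1 * g p.2 = ∑ p ∈ Finset.HasAntidiagonal.antidiagonal (n + 1),
            ((p.1 : K) * f p.1 * g p.2 + f p.1 * ((p.2 : K) * g p.2)) := by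
        rw [Finset.mul_sum]
        refine Finset.sum_congr rfl fun p hp => ?_
        have h2 : p.1 + p.2 = n + 1 := Finset.HasAntidiagonal.mem_antidiagonal.1 hp
        rw [← h2]
        push_cast
        ring
      rw [h1, Finset.sum_add_distrib, Finset.sum_add_distrib]
      congr 1
      · rw [Finset.Nat.antidiagonal_succ, Finset.sum_cons, Finset.sum_map]
        simp
      · rw [Finset.Nat.antidiagonal_succ', Finset.sum_cons, Finset.sum_map]
        simp
    exact key

end

section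

variable {k L : Type} [Field k] [CharZero k] [Field L] [CharZero L] [Algebra k L]
  {Dk : Derivation ℚ k k} {D : Derivation ℚ L L} {Γ : Type} [Fintype Γ] [DecidableEq Γ]

/-- The matrix of the push-forward. -/
noncomputable def pushG {W : Type} [DecidableEq W] (D : Derivation ℚ L L)
    (b : Module.Basis Γ k L) (a : Matrix W W L) : Matrix (Γ × W) (Γ × W) k :=
  fun p q => b.repr ((if p.2 = q.2 then D (b p.1) else 0) + b p.1 * a p.2 q.2) q.1

/-- The derivation in coordinates. -/
theorem pushG_D (hext : ∀ c : k, D (algebraMap k L c) = algebraMap k L (Dk c))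
    (b : Module.Basis Γ k L) (x : L) (γ : Γ) :
    b.repr (D x) γ = Dk (b.repr x γ) + ∑ γ'', b.repr x γ'' * b.repr (D (b γ'')) γ := by
  have h1 : D x = ∑ γ, Dk (b.repr x γ) • b γ + ∑ γ'', b.repr x γ'' • D (b γ'') := by
    conv_lhs => rw [← b.sum_repr x]
    rw [map_sum, ← Finset.sum_add_distrib]
    refine Finset.sum_congr rfl fun γ _ => ?_
    rw [Algebra.smul_def, Derivation.leibniz, hext, smul_eq_mul, smul_eq_mul,
      Algebra.smul_def, Algebra.smul_def]
    ring
  rw [h1, map_add, Finsupp.add_apply, b.repr_sum_self, map_sum, Finsupp.finsetSum_apply]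
  congr 1
  refine Finset.sum_congr rfl fun γ'' _ => ?_
  rw [map_smul, Finsupp.smul_apply, smul_eq_mul]

/-- The iterates of the push-forward. -/
theorem iter_pushG (hext : ∀ c : k, D (algebraMap k L c) = algebraMap k L (Dk c))
    (b : Module.Basis Γ k L) {W : Type} [Fintype W] [DecidableEq W]
    (a : Matrix W W L) (n : ℕ) (γ γ' : Γ) (I J : W) :
    iter Dk (pushG D b a) n (γ, I) (γ', J) = b.repr (tw D a (b γ) n I J) γ' := by
  induction n generalizing γ' J with
  | zero =>
    rw [tw_zero]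
    simp only [iter]
    by_cases hI : I = J
    · subst hI
      rw [if_pos rfl, b.repr_self]
      by_cases hγ : γ = γ'
      · subst hγ
        simp
      · rw [Matrix.one_apply_ne (fun h => hγ (Prod.mk.inj h).1), Finsupp.single_eq_of_ne]
        exact fun h => hγ h.symm
    · rw [if_neg hI, map_zero, Finsupp.zero_apply,
        Matrix.one_apply_ne (fun h => hI (Prod.mk.inj h).2)]
  | succ n ih =>
    have hk : ((n + 1 : ℕ) : k) ≠ 0 := Nat.cast_ne_zero.2 (Nat.succ_ne_zero n)
    apply mul_left_cancel₀ hk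
    have h0 : ((n + 1 : ℕ) : k) * iter Dk (pushG D b a) (n + 1) (γ, I) (γ', J) =
        Dk (iter Dk (pushG D b a) n (γ, I) (γ', J)) +
          ∑ l, iter Dk (pushG D b a) n (γ, I) l * pushG D b a l (γ', J) := by
      rw [iter, Matrix.of_apply, ← mul_assoc, mul_inv_cancel₀ hk, one_mul]
    rw [h0, ih, Fintype.sum_prod_type]
    have h1 : ((n + 1 : ℕ) : k) * b.repr (tw D a (b γ) (n + 1) I J) γ' =
        b.repr (((n + 1 : ℕ) : L) * tw D a (b γ) (n + 1) I J) γ' := by
      have h2 : ((n + 1 : ℕ) : L) * tw D a (b γ) (n + 1) I J =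
          ((n + 1 : ℕ) : k) • tw D a (b γ) (n + 1) I J := by
        rw [Algebra.smul_def, map_natCast]
      rw [h2, map_smul, Finsupp.smul_apply, smul_eq_mul]
    rw [h1, tw_succ, map_add, Finsupp.add_apply, pushG_D hext, add_assoc]
    congr 1
    have h3 : ∀ γ'' l, iter Dk (pushG D b a) n (γ, I) (γ'', l) * pushG D b a (γ'', l) (γ', J) =
        (if l = J then b.repr (tw D a (b γ) n I l) γ'' * b.repr (D (b γ'')) γ' else 0) +
        b.repr (b.repr (tw D a (b γ) n I l) γ'' • (b γ'' * a l J)) γ' := by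
      intro γ'' l
      rw [ih, map_smul, Finsupp.smul_apply, smul_eq_mul]
      unfold pushG
      rw [map_add, Finsupp.add_apply, mul_add]
      congr 1
      by_cases hl : l = J
      · simp only [if_pos hl]
      · simp only [if_neg hl, map_zero, Finsupp.zero_apply, mul_zero]
    simp only [h3, Finset.sum_add_distrib]
    congr 1
    · refine Finset.sum_congr rfl fun γ'' _ => ?_
      rw [Finset.sum_ite_eq' Finset.univ J, if_pos (Finset.mem_univ _)]
    · rw [map_sum, Finsupp.finsetSum_apply, Finset.sum_comm]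
      refine Finset.sum_congr rfl fun l _ => ?_
      rw [← Finsupp.finsetSum_apply, ← map_sum]
      congr 2
      have h4 : ∀ γ'', b.repr (tw D a (b γ) n I l) γ'' • (b γ'' * a l J) =
          (b.repr (tw D a (b γ) n I l) γ'' • b γ'') * a l J := by
        intro γ''
        rw [smul_mul_assoc]
      rw [Finset.sum_congr rfl fun γ'' _ => h4 γ'', ← Finset.sum_mul, b.sum_repr]

/-- The matrix of the derivation. -/
noncomputable def matD (D : Derivation ℚ L L) (b : Module.Basis Γ k L) : Matrix Γ Γ k :=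
  fun γ γ' => b.repr (D (b γ)) γ'

omit [Fintype Γ] [DecidableEq Γ] in
/-- The push-forward of a tensor power. -/
theorem pushG_tens {W : Type} [DecidableEq W] (b : Module.Basis Γ k L) (a : Matrix W W L) (r : ℕ) :
    pushG D b (tens r a) = tensG r (matD D b) (pushM b a) := by
  funext x y
  unfold pushG tensG matD
  rw [map_add, Finsupp.add_apply]
  congr 1
  · split_ifs
    · rfl
    · rw [map_zero, Finsupp.zero_apply]
  · unfold tens tensB pushM
    rw [Finset.mul_sum, map_sum, Finsupp.finsetSum_apply]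
    refine Finset.sum_congr rfl fun s _ => ?_
    split_ifs
    · rfl
    · rw [mul_zero, map_zero, Finsupp.zero_apply]

omit [Fintype Γ] [DecidableEq Γ] in
theorem pushG_add {W : Type} [DecidableEq W] (b : Module.Basis Γ k L) (a : Matrix W W L) :
    pushG D b a = addG (matD D b) (pushM b a) := by
  funext x y
  unfold pushG addG matD pushM
  rw [map_add, Finsupp.add_apply]
  congr 1
  split_ifs
  · rfl
  · rw [map_zero, Finsupp.zero_apply]

/-- The product formula for the iterates of the push-forward. -/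
theorem iter_starG (hext : ∀ c : k, D (algebraMap k L c) = algebraMap k L (Dk c))
    (b : Module.Basis Γ k L) {γ₀ : Γ} (hγ₀ : D (b γ₀) = 0) {β : Type} [Fintype β] [DecidableEq β]
    (a : Matrix β β L) (r n : ℕ) (γ γ' : Γ) (I J : Fin (r + 1) → β) :
    iter Dk (pushG D b (tens (r + 1) a)) n (γ, I) (γ', J) =
      ∑ p ∈ Finset.HasAntidiagonal.antidiagonal n, ∑ γ₂, ∑ γ₃,
        iter Dk (pushG D b a) p.1 (γ₀, I 0) (γ₂, J 0) *
        iter Dk (pushG D b (tens r a)) p.2 (γ, Fin.tail I) (γ₃, Fin.tail J) *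
          b.repr ((b γ₀)⁻¹ * (b γ₂ * b γ₃)) γ' := by
  have hb0 : b γ₀ ≠ 0 := b.ne_zero γ₀
  have hc : D (b γ₀)⁻¹ = 0 := by
    have h1 : D (b γ₀ * (b γ₀)⁻¹) = 0 := by
      rw [mul_inv_cancel₀ hb0]
      exact Derivation.map_one_eq_zero D
    rw [Derivation.leibniz, hγ₀, smul_zero, add_zero, smul_eq_mul] at h1
    exact (mul_eq_zero.1 h1).resolve_left hb0
  have h1 : b γ = (b γ₀)⁻¹ * (b γ₀ * b γ) := by
    rw [← mul_assoc, inv_mul_cancel₀ hb0, one_mul]
  rw [iter_pushG hext]
  conv_lhs => rw [h1]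
  rw [tw_const D _ hc, tw_tens, Finset.mul_sum, map_sum, Finsupp.finsetSum_apply]
  refine Finset.sum_congr rfl fun p _ => ?_
  have h2 : ∀ γ₂ γ₃, iter Dk (pushG D b a) p.1 (γ₀, I 0) (γ₂, J 0) *
        iter Dk (pushG D b (tens r a)) p.2 (γ, Fin.tail I) (γ₃, Fin.tail J) *
          b.repr ((b γ₀)⁻¹ * (b γ₂ * b γ₃)) γ' =
      b.repr ((b γ₀)⁻¹ * ((b.repr (tw D a (b γ₀) p.1 (I 0) (J 0)) γ₂ • b γ₂) *
        (b.repr (tw D (tens r a) (b γ) p.2 (Fin.tail I) (Fin.tail J)) γ₃ • b γ₃))) γ' := by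
    intro γ₂ γ₃
    rw [iter_pushG hext, iter_pushG hext, smul_mul_smul_comm, mul_smul_comm, map_smul,
      Finsupp.smul_apply, smul_eq_mul]
  simp only [h2]
  simp only [← Finsupp.finsetSum_apply, ← map_sum]
  congr 2
  rw [← Finset.sum_congr rfl fun γ₂ _ => Finset.mul_sum _ _ _, ← Finset.mul_sum,
    ← Finset.sum_mul_sum, b.sum_repr, b.sum_repr]

/-- The product formula over the polynomial ring. -/
theorem starG_of {σ : Type} [DecidableEq σ] [Algebra (MvPolynomial σ ℚ) k]
    [IsFractionRing (MvPolynomial σ ℚ) k] {i₀ : σ}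
    (hD : ∀ P, Dk (algebraMap (MvPolynomial σ ℚ) k P) =
      algebraMap (MvPolynomial σ ℚ) k (MvPolynomial.pderiv i₀ P))
    (hext : ∀ c : k, D (algebraMap k L c) = algebraMap k L (Dk c))
    (b : Module.Basis Γ k L) {γ₀ : Γ} (hγ₀ : D (b γ₀) = 0) {β : Type} [Fintype β] [DecidableEq β]
    {a : Matrix β β L} {Θ : MvPolynomial σ ℚ} (hΘ : Θ ≠ 0)
    {C : Matrix Γ Γ (MvPolynomial σ ℚ)} {M : Matrix (Γ × β) (Γ × β) (MvPolynomial σ ℚ)}
    {ν : Γ → Γ → Γ → MvPolynomial σ ℚ}
    (hC : ∀ x y, matD D b x y = algebraMap (MvPolynomial σ ℚ) k (C x y) /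
      algebraMap (MvPolynomial σ ℚ) k Θ)
    (hM : ∀ x y, pushM b a x y = algebraMap (MvPolynomial σ ℚ) k (M x y) /
      algebraMap (MvPolynomial σ ℚ) k Θ)
    (hν : ∀ γ₂ γ₃ γ', b.repr ((b γ₀)⁻¹ * (b γ₂ * b γ₃)) γ' =
      algebraMap (MvPolynomial σ ℚ) k (ν γ₂ γ₃ γ') / algebraMap (MvPolynomial σ ℚ) k Θ) :
    StarG i₀ Θ C M := by
  have hinj : Function.Injective (algebraMap (MvPolynomial σ ℚ) k) :=
    IsFractionRing.injective (MvPolynomial σ ℚ) k
  have hΘk : algebraMap (MvPolynomial σ ℚ) k Θ ≠ 0 := fun h => hΘ (hinj (by rw [h, map_zero]))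
  have hMr : ∀ (r : ℕ) (x y : Γ × (Fin r → β)), pushG D b (tens r a) x y =
      algebraMap (MvPolynomial σ ℚ) k (tensG r C M x y) / algebraMap (MvPolynomial σ ℚ) k Θ := by
    intro r x y
    rw [pushG_tens]
    unfold tensG tensB
    rw [map_add, add_div, map_sum, Finset.sum_div]
    congr 1
    · split_ifs
      · exact hC _ _
      · rw [map_zero, zero_div]
    · refine Finset.sum_congr rfl fun s _ => ?_
      split_ifs
      · exact hM _ _
      · rw [map_zero, zero_div]
  have hM1 : ∀ x y, pushG D b a x y =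
      algebraMap (MvPolynomial σ ℚ) k (addG C M x y) / algebraMap (MvPolynomial σ ℚ) k Θ := by
    intro x y
    rw [pushG_add]
    unfold addG
    rw [map_add, add_div, hM]
    congr 1
    split_ifs
    · exact hC _ _
    · rw [map_zero, zero_div]
  refine ⟨γ₀, ν, ?_⟩
  intro r n γ γ' I J
  apply hinj
  rw [map_mul, ← den_iter hD Θ _ hΘk (hMr (r + 1)) n, iter_starG hext b hγ₀, map_sum,
    Finset.mul_sum, Finset.mul_sum]
  refine Finset.sum_congr rfl fun p hp => ?_
  have hpn : p.1 + p.2 = n := Finset.HasAntidiagonal.mem_antidiagonal.1 hp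
  rw [map_sum, Finset.mul_sum, Finset.mul_sum]
  refine Finset.sum_congr rfl fun γ₂ _ => ?_
  rw [map_sum, Finset.mul_sum, Finset.mul_sum]
  refine Finset.sum_congr rfl fun γ₃ _ => ?_
  rw [hν, map_mul (algebraMap (MvPolynomial σ ℚ) k), map_mul (algebraMap (MvPolynomial σ ℚ) k),
    ← den_iter hD Θ _ hΘk hM1 p.1, ← den_iter hD Θ _ hΘk (hMr r) p.2, ← hpn, pow_add]
  field_simp

end

end Pool.Agent.Helper79.EE
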