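import Pool.Agent.Helper79.EE.Univ
import Pool.Agent.Helper79.DD.Univ

/-!
# EE: tensor powers and quotients of the universal push-forward (helper79)
-/

open Polynomial

namespace Pool.Agent.Helper79.EE

open Pool.Agent.Helper79.CU Pool.Agent.Helper79.SE Pool.Agent.Helper79.GA
  Pool.Agent.Helper79.GX Pool.Agent.Helper64.Per Pool.Agent.Helper79.AA Pool.Agent.Helper79.DD
  Pool.Agent.Helper79.BB

/-- Growth of the iterates of the tensor powers. -/
theorem gr_tensG {Γ β : Type} [Fintype Γ] [DecidableEq Γ] [Fintype β] [DecidableEq β] {T : ℚ[X]}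
    {A : Matrix (Γ × β) (Γ × β) ℚ[X]}
    {Ar : ∀ r : ℕ, Matrix (Γ × (Fin (r + 1) → β)) (Γ × (Fin (r + 1) → β)) ℚ[X]} {u : ℚ} {Q : ℝ}
    (hQ : 1 ≤ Q) (h : Gr T A u Q)
    (h0 : Ar 0 = A.submatrix (Equiv.prodCongr (Equiv.refl Γ) (Equiv.funUnique (Fin 1) β))
      (Equiv.prodCongr (Equiv.refl Γ) (Equiv.funUnique (Fin 1) β)))
    (γ₀ : Γ) (ν : Γ → Γ → Γ → ℚ)
    (h1 : ∀ (r n : ℕ) (γ γ' : Γ) (I J : Fin (r + 2) → β),
      gm T (Ar (r + 1)) n u (γ, I) (γ', J) =
      ∑ p ∈ Finset.HasAntidiagonal.antidiagonal n, ∑ γ₂, ∑ γ₃,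
        gm T A p.1 u (γ₀, I 0) (γ₂, J 0) *
          gm T (Ar r) p.2 u (γ, Fin.tail I) (γ₃, Fin.tail J) * ν γ₂ γ₃ γ') (r : ℕ) :
    Gr T (Ar r) u ((2 * Q) ^ (r + 1)) := by
  induction r with
  | zero =>
    have h2 := gr_submatrix (Equiv.prodCongr (Equiv.refl Γ) (Equiv.funUnique (Fin 1) β)) h
    rw [← h0] at h2
    refine gr_mono h2 (by linarith) ?_
    rw [zero_add, pow_one]
    linarith
  | succ r ih =>
    have hQ2 : Q ≤ (2 * Q) ^ (r + 1) := by
      calc Q ≤ (2 * Q) ^ 1 := by rw [pow_one]; linarith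
        _ ≤ (2 * Q) ^ (r + 1) := pow_le_pow_right₀ (by linarith) (by omega)
    have h2 := gr_prod (S := Γ × Γ) hQ hQ2 h ih (A₃ := Ar (r + 1))
      (fun x _ _ => (γ₀, x.2 0)) (fun _ y s => (s.1, y.2 0))
      (fun x _ _ => (x.1, Fin.tail x.2)) (fun _ y s => (s.2, Fin.tail y.2))
      (fun _ y s => ν s.1 s.2 y.1) (fun n x y => by
        obtain ⟨γ, I⟩ := x
        obtain ⟨γ', J⟩ := y
        rw [h1]
        refine Finset.sum_congr rfl fun p _ => ?_
        rw [Fintype.sum_prod_type])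
    rw [pow_succ]
    exact h2

theorem tensG_one {R Γ β : Type} [CommRing R] [DecidableEq β] (C : Matrix Γ Γ R)
    (M : Matrix (Γ × β) (Γ × β) R) : tensG 1 C M =
      (addG C M).submatrix (Equiv.prodCongr (Equiv.refl Γ) (Equiv.funUnique (Fin 1) β))
        (Equiv.prodCongr (Equiv.refl Γ) (Equiv.funUnique (Fin 1) β)) := by
  funext x y
  obtain ⟨γ, I⟩ := x
  obtain ⟨γ', J⟩ := y
  change (if I = J then C γ γ' else 0) + tensB 1 M (γ, I) (γ', J) =
    (if I 0 = J 0 then C γ γ' else 0) + M (γ, I 0) (γ', J 0)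
  congr 1
  · congr 1
    rw [eq_iff_iff]
    constructor
    · intro h
      rw [h]
    · intro h
      funext i
      rw [Subsingleton.elim i 0]
      exact h
  · unfold tensB
    rw [Fin.sum_univ_one, if_pos]
    intro s' hs'
    exact absurd (Subsingleton.elim _ _) hs'

theorem tensG_map {R S Γ β : Type} [CommRing R] [CommRing S] [DecidableEq β] (φ : R →+* S)
    (r : ℕ) (C : Matrix Γ Γ R) (M : Matrix (Γ × β) (Γ × β) R) :
    (tensG r C M).map φ = tensG r (C.map φ) (M.map φ) := by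
  ext1 x y
  rw [Matrix.map_apply]
  unfold tensG tensB
  rw [map_add, map_sum]
  congr 1
  · split_ifs
    · rfl
    · exact map_zero φ
  · refine Finset.sum_congr rfl fun s _ => ?_
    split_ifs
    · rfl
    · exact map_zero φ

theorem gm_specE {σ : Type} [DecidableEq σ] {ι : Type} [Fintype ι] [DecidableEq ι] (i₀ : σ)
    (a : σ → ℤ) (Θ : MvPolynomial σ ℚ) (M : Matrix ι ι (MvPolynomial σ ℚ)) (n : ℕ) (u : ℚ)
    (x y : ι) : gm (spec i₀ a Θ) (M.map (spec i₀ a)) n u x y =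
      (spec i₀ a (mbeta i₀ Θ M n x y)).eval u / (spec i₀ a Θ).eval u ^ n := by
  rw [gm, Matrix.of_apply, spec_beta, Matrix.map_apply]

/-- The classes of words: sums over the classes. -/
theorem tensG_qinv {R Γ β : Type} [CommRing R] [Fintype Γ] [DecidableEq Γ] [Fintype β]
    [DecidableEq β] (r : ℕ) (C : Matrix Γ Γ R) (M : Matrix (Γ × β) (Γ × β) R) :
    QInv (fun x : Γ × (Fin r → β) => (x.1, cls x.2)) (tensG r C M) := by
  rintro ⟨γ, I⟩ ⟨γ', I'⟩ s' h
  have hM := tensB_qinv M (γ, I) (γ', I') s' h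
  obtain rfl : γ = γ' := congrArg Prod.fst h
  have hI : cls I = cls I' := congrArg Prod.snd h
  have key : ∀ K : Fin r → β, (∑ J : Γ × (Fin r → β), if (J.1, cls J.2) = s' then
      tensG r C M (γ, K) J else 0) = (if cls K = s'.2 then C γ s'.1 else 0) +
        ∑ J : Γ × (Fin r → β), if clsG J = s' then tensB r M (γ, K) J else 0 := by
    intro K
    have e1 : ∀ J : Γ × (Fin r → β), (if (J.1, cls J.2) = s' then tensG r C M (γ, K) J else 0) =
        (if J = (s'.1, K) then (if cls K = s'.2 then C γ s'.1 else 0) else 0) +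
          if clsG J = s' then tensB r M (γ, K) J else 0 := by
      intro J
      change (if (J.1, cls J.2) = s' then (if K = J.2 then C γ J.1 else 0) + tensB r M (γ, K) J
        else 0) = _ + if (J.1, cls J.2) = s' then tensB r M (γ, K) J else 0
      by_cases h1 : (J.1, cls J.2) = s'
      · rw [if_pos h1, if_pos h1]
        congr 1
        by_cases h2 : K = J.2
        · rw [if_pos h2, if_pos, if_pos]
          · rw [← h1]
          · rw [← h1, h2]
          · rw [← h1, h2]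
        · rw [if_neg h2, if_neg]
          intro h3
          exact h2 (by rw [h3])
      · rw [if_neg h1, if_neg h1, add_zero]
        by_cases h2 : J = (s'.1, K)
        · rw [if_pos h2, if_neg]
          intro h3
          apply h1
          rw [h2]
          exact Prod.ext rfl h3
        · rw [if_neg h2]
    rw [Finset.sum_congr rfl fun J _ => e1 J, Finset.sum_add_distrib, Finset.sum_ite_eq',
      if_pos (Finset.mem_univ _)]
  rw [key, key, hI, hM]

section

variable {κ : IntermediateField ℚ Qbar} {J : Type} [Fintype J] [DecidableEq J] {ω : J → κ}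
  {dg : ℕ} {j₀ : J} {T : κ[X]}

/-- The push-forward of a tensor power. -/
noncomputable def UniE.tens {β : Type} [Fintype β] [DecidableEq β] {A : Matrix β β κ[X]}
    (𝔇 : UniE ω dg j₀ T A) (r : ℕ) :
    Uni ω dg j₀ T (Pool.Agent.Helper79.CU.tens (r + 1) A) where
  Γ := 𝔇.Γ
  b := 𝔇.b
  Θ := 𝔇.Θ
  Θ_ne := 𝔇.Θ_ne
  M := tensG (r + 1) 𝔇.C 𝔇.M
  ρ := 𝔇.ρ
  c := (𝔇.c + 1) * (r + 1)
  growth := by
    intro X hX a u ha hu
    have hX1 : (1 : ℝ) ≤ X := by exact_mod_cast (by omega : 1 ≤ X)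
    have hX2 : (2 : ℝ) ≤ X := by exact_mod_cast hX
    obtain ⟨γ₀, ν, hν⟩ := 𝔇.star
    have hu' : (spec (0, j₀) a 𝔇.Θ).eval (u : ℚ) ≠ 0 := by
      rw [spec_eval]
      exact hu
    have h1 := gr_tensG (Ar := fun r => (tensG (r + 1) 𝔇.C 𝔇.M).map (spec (0, j₀) a))
      (one_le_pow₀ hX1) (𝔇.growth X hX a u ha hu) ?_ γ₀
      (fun γ₂ γ₃ γ' => (spec (0, j₀) a (ν γ₂ γ₃ γ')).eval (u : ℚ) /
        (spec (0, j₀) a 𝔇.Θ).eval (u : ℚ)) ?_ r
    · refine gr_mono h1 (by positivity) ?_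
      rw [pow_mul]
      refine pow_le_pow_left₀ (by positivity) ?_ _
      rw [pow_succ, mul_comm]
      exact mul_le_mul_of_nonneg_left hX2 (by positivity)
    · rw [tensG_one]
      rfl
    · intro r n γ γ' I J
      simp only [gm_specE]
      have h2 := congrArg (fun P => (spec (0, j₀) a P).eval (u : ℚ)) (hν (r + 1) n γ γ' I J)
      simp only [map_mul, map_sum, eval_mul, eval_finsetSum] at h2
      have h3 : ∀ x y : ℚ, x ≠ 0 → y / x ^ n = (x * y) / x ^ (n + 1) := by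
        intro x y hx
        rw [pow_succ]
        field_simp
      rw [h3 _ _ hu', h2, Finset.sum_div]
      refine Finset.sum_congr rfl fun p hp => ?_
      have hpn : p.1 + p.2 = n := Finset.HasAntidiagonal.mem_antidiagonal.1 hp
      rw [Finset.sum_div]
      refine Finset.sum_congr rfl fun γ₂ _ => ?_
      rw [Finset.sum_div]
      refine Finset.sum_congr rfl fun γ₃ _ => ?_
      rw [← hpn, pow_succ, pow_add, mul_div_mul_comm, mul_div_mul_comm]
  ident := by
    intro t a ht γ I J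
    have h1 : ∀ s, MvPolynomial.aeval a 𝔇.Θ * (-(algebraMap κ ℂ (ω j₀))) *
        (if (∀ s', s' ≠ s → I s' = J s') then algebraMap κ ℂ (ω (𝔇.b γ).1) * t ^ (𝔇.b γ).2 *
          aeval t (A (I s) (J s)) else 0) =
        Fd ω a t * aeval t T * ∑ γ', (if (∀ s', s' ≠ s → I s' = J s') then
          MvPolynomial.aeval a (𝔇.M (γ, I s) (γ', J s)) *
            (algebraMap κ ℂ (ω (𝔇.b γ').1) * t ^ (𝔇.b γ').2) else 0) := by
      intro s
      by_cases hs : ∀ s', s' ≠ s → I s' = J s'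
      · simp only [if_pos hs]
        exact 𝔇.identM t a ht γ (I s) (J s)
      · simp only [if_neg hs]
        simp
    have h2 := Finset.sum_congr (rfl : (Finset.univ : Finset (Fin (r + 1))) = Finset.univ)
      fun s _ => h1 s
    rw [← Finset.mul_sum, ← Finset.mul_sum, Finset.sum_comm] at h2
    have h3 : MvPolynomial.aeval a 𝔇.Θ * (-(algebraMap κ ℂ (ω j₀))) *
        (if I = J then (((𝔇.b γ).2 : ℕ) : ℂ) * algebraMap κ ℂ (ω (𝔇.b γ).1) *
          t ^ ((𝔇.b γ).2 - 1) * aeval t T else 0) =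
        Fd ω a t * aeval t T * ∑ γ', (if I = J then MvPolynomial.aeval a (𝔇.C γ γ') *
          (algebraMap κ ℂ (ω (𝔇.b γ').1) * t ^ (𝔇.b γ').2) else 0) := by
      by_cases hs : I = J
      · simp only [if_pos hs]
        linear_combination (aeval t T) * 𝔇.identC t a ht γ
      · simp only [if_neg hs]
        simp
    have e1 : algebraMap κ ℂ (ω (𝔇.b γ).1) * t ^ (𝔇.b γ).2 *
        aeval t (Pool.Agent.Helper79.CU.tens (r + 1) A I J) =
        ∑ s, if (∀ s', s' ≠ s → I s' = J s') then algebraMap κ ℂ (ω (𝔇.b γ).1) *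
          t ^ (𝔇.b γ).2 * aeval t (A (I s) (J s)) else 0 := by
      unfold Pool.Agent.Helper79.CU.tens
      rw [map_sum, Finset.mul_sum]
      refine Finset.sum_congr rfl fun s _ => ?_
      split_ifs
      · rfl
      · rw [map_zero, mul_zero]
    have e2 : ∀ γ', MvPolynomial.aeval a (tensG (r + 1) 𝔇.C 𝔇.M (γ, I) (γ', J)) *
        (algebraMap κ ℂ (ω (𝔇.b γ').1) * t ^ (𝔇.b γ').2) =
        (if I = J then MvPolynomial.aeval a (𝔇.C γ γ') *
          (algebraMap κ ℂ (ω (𝔇.b γ').1) * t ^ (𝔇.b γ').2) else 0) +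
        ∑ s, if (∀ s', s' ≠ s → I s' = J s') then
          MvPolynomial.aeval a (𝔇.M (γ, I s) (γ', J s)) *
            (algebraMap κ ℂ (ω (𝔇.b γ').1) * t ^ (𝔇.b γ').2) else 0 := by
      intro γ'
      unfold tensG tensB
      rw [map_add, map_sum, add_mul, Finset.sum_mul]
      congr 1
      · split_ifs
        · rfl
        · rw [map_zero, zero_mul]
      · refine Finset.sum_congr rfl fun s _ => ?_
        split_ifs
        · rfl
        · rw [map_zero, zero_mul]
    rw [Finset.sum_congr rfl fun γ' _ => e2 γ', Finset.sum_add_distrib, mul_add, mul_add, e1,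
      h2, h3]
  span := 𝔇.span

/-- The quotient. -/
noncomputable def quoU {W W' : Type} [Fintype W] [DecidableEq W] [Fintype W']
    [DecidableEq W'] {A : Matrix W W κ[X]}
    (𝔇 : Uni ω dg j₀ T A) (π : W → W') (σ : W' → W) (hσ : ∀ s, π (σ s) = s)
    (hM : QInv (fun x : 𝔇.Γ × W => (x.1, π x.2)) 𝔇.M) :
    Uni ω dg j₀ T (qM π σ A) where
  Γ := 𝔇.Γ
  b := 𝔇.b
  Θ := 𝔇.Θ
  Θ_ne := 𝔇.Θ_ne
  M := qM (fun x : 𝔇.Γ × W => (x.1, π x.2)) (fun s : 𝔇.Γ × W' => (s.1, σ s.2)) 𝔇.M
  ρ := 𝔇.ρ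
  c := 𝔇.c
  growth := by
    intro X hX a u ha hu
    have hX1 : (1 : ℝ) ≤ X := by exact_mod_cast (by omega : 1 ≤ X)
    have h1 := gr_q (π := fun x : 𝔇.Γ × W => (x.1, π x.2)) (σ := fun s : 𝔇.Γ × W' => (s.1, σ s.2))
      (fun s => Prod.ext rfl (hσ s.2)) (hM.map (spec (0, j₀) a : MvPolynomial _ ℚ →+* ℚ[X]))
      (one_le_pow₀ hX1) (𝔇.growth X hX a u ha hu)
    rw [← qM_map] at h1
    exact h1
  ident := by
    intro t a ht γ s s'
    have h1 : ∀ J, (if π J = s' then MvPolynomial.aeval a 𝔇.Θ * (-(algebraMap κ ℂ (ω j₀))) *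
      ((if σ s = J then (((𝔇.b γ).2 : ℕ) : ℂ) * algebraMap κ ℂ (ω (𝔇.b γ).1) *
        t ^ ((𝔇.b γ).2 - 1) * aeval t T else 0) +
        algebraMap κ ℂ (ω (𝔇.b γ).1) * t ^ (𝔇.b γ).2 * aeval t (A (σ s) J)) else 0) =
        Fd ω a t * aeval t T * ∑ γ', (if π J = s' then
          MvPolynomial.aeval a (𝔇.M (γ, σ s) (γ', J)) *
            (algebraMap κ ℂ (ω (𝔇.b γ').1) * t ^ (𝔇.b γ').2) else 0) := by
      intro J
      by_cases hJ : π J = s'
      · simp only [if_pos hJ]
        exact 𝔇.ident t a ht γ (σ s) J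
      · simp only [if_neg hJ]
        simp
    have h2 := Finset.sum_congr (rfl : (Finset.univ : Finset W) = Finset.univ) fun J _ => h1 J
    rw [← Finset.mul_sum, Finset.sum_comm] at h2
    have e1 : aeval t (qM π σ A s s') = ∑ J, if π J = s' then aeval t (A (σ s) J) else 0 := by
      unfold qM
      rw [map_sum]
      refine Finset.sum_congr rfl fun J _ => ?_
      split_ifs
      · rfl
      · exact map_zero _
    have e2 : ∀ γ', MvPolynomial.aeval a (qM (fun x : 𝔇.Γ × W => (x.1, π x.2))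
        (fun s : 𝔇.Γ × W' => (s.1, σ s.2)) 𝔇.M (γ, s) (γ', s')) *
          (algebraMap κ ℂ (ω (𝔇.b γ').1) * t ^ (𝔇.b γ').2) =
        ∑ J, if π J = s' then MvPolynomial.aeval a (𝔇.M (γ, σ s) (γ', J)) *
          (algebraMap κ ℂ (ω (𝔇.b γ').1) * t ^ (𝔇.b γ').2) else 0 := by
      intro γ'
      rw [qM_G, map_sum, Finset.sum_mul]
      refine Finset.sum_congr rfl fun J _ => ?_
      split_ifs
      · rfl
      · rw [map_zero, zero_mul]
    have e3 : (if s = s' then (((𝔇.b γ).2 : ℕ) : ℂ) * algebraMap κ ℂ (ω (𝔇.b γ).1) *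
        t ^ ((𝔇.b γ).2 - 1) * aeval t T else 0) = ∑ J, if π J = s' then
          (if σ s = J then (((𝔇.b γ).2 : ℕ) : ℂ) * algebraMap κ ℂ (ω (𝔇.b γ).1) *
            t ^ ((𝔇.b γ).2 - 1) * aeval t T else 0) else 0 := by
      rw [Finset.sum_eq_single (σ s)]
      · rw [hσ, if_pos rfl]
      · intro J _ hJ
        have h3 : ¬ σ s = J := fun h => hJ h.symm
        simp only [if_neg h3, ite_self]
      · intro h
        exact absurd (Finset.mem_univ _) h
    rw [Finset.sum_congr rfl fun γ' _ => e2 γ', ← h2, e1, e3, Finset.mul_sum,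
      ← Finset.sum_add_distrib, Finset.mul_sum]
    refine Finset.sum_congr rfl fun J _ => ?_
    split_ifs <;> simp
  span := 𝔇.span

end

end Pool.Agent.Helper79.EE
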