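import Pool.Agent.Helper79.AA.Univ
import Pool.Agent.Helper79.EE.GrG

/-!
# EE: the universal push-forward and its tensor powers (helper79)
-/

open Polynomial

namespace Pool.Agent.Helper79.EE

open Pool.Agent.Helper79.CU Pool.Agent.Helper79.SE Pool.Agent.Helper79.GA
  Pool.Agent.Helper79.GX Pool.Agent.Helper64.Per Pool.Agent.Helper79.AA Pool.Agent.Helper79.DD

/-- The universal push-forward with the product formula for the tensor powers. -/
structure UniE {κ : IntermediateField ℚ Qbar} {J : Type} [Fintype J] [DecidableEq J] (ω : J → κ)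
    (dg : ℕ) (j₀ : J) {β : Type} [Fintype β] [DecidableEq β] (T : κ[X])
    (A : Matrix β β κ[X]) where
  Γ : Type
  [fΓ : Fintype Γ]
  [dΓ : DecidableEq Γ]
  b : Γ → J × ℕ
  Θ : MvPolynomial (Ix dg J) ℚ
  Θ_ne : Θ ≠ 0
  C : Matrix Γ Γ (MvPolynomial (Ix dg J) ℚ)
  M : Matrix (Γ × β) (Γ × β) (MvPolynomial (Ix dg J) ℚ)
  ρ : J × ℕ → Γ → MvPolynomial (Ix dg J) ℚ
  c : ℕ
  growth : ∀ X : ℕ, 2 ≤ X → ∀ (a : Ix dg J → ℤ) (u : ℤ), (∀ i, |pt (0, j₀) a u i| ≤ X) →
    MvPolynomial.eval (fun i => ((pt (0, j₀) a u i : ℤ) : ℚ)) Θ ≠ 0 →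
    Gr (spec (0, j₀) a Θ) ((addG C M).map (spec (0, j₀) a)) (u : ℚ) ((X : ℝ) ^ c)
  identC : ∀ (t : ℂ) (a : Ix dg J → ℂ), Fv ω a t = 0 → ∀ (γ : Γ),
    MvPolynomial.aeval a Θ * (-(algebraMap κ ℂ (ω j₀))) *
      ((((b γ).2 : ℕ) : ℂ) * algebraMap κ ℂ (ω (b γ).1) * t ^ ((b γ).2 - 1)) =
    Fd ω a t * ∑ γ', MvPolynomial.aeval a (C γ γ') *
      (algebraMap κ ℂ (ω (b γ').1) * t ^ (b γ').2)
  identM : ∀ (t : ℂ) (a : Ix dg J → ℂ), Fv ω a t = 0 → ∀ (γ : Γ) (i i' : β),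
    MvPolynomial.aeval a Θ * (-(algebraMap κ ℂ (ω j₀))) *
      (algebraMap κ ℂ (ω (b γ).1) * t ^ (b γ).2 * aeval t (A i i')) =
    Fd ω a t * aeval t T * ∑ γ', MvPolynomial.aeval a (M (γ, i) (γ', i')) *
      (algebraMap κ ℂ (ω (b γ').1) * t ^ (b γ').2)
  span : ∀ (t : ℂ) (a : Ix dg J → ℂ), Fv ω a t = 0 → ∀ p : J × ℕ, p.2 ≤ dg →
    MvPolynomial.aeval a Θ * (algebraMap κ ℂ (ω p.1) * t ^ p.2) =
      ∑ γ, MvPolynomial.aeval a (ρ p γ) * (algebraMap κ ℂ (ω (b γ).1) * t ^ (b γ).2)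
  star : StarG (0, j₀) Θ C M

attribute [instance] UniE.fΓ UniE.dΓ

theorem exists_uniE {κ : IntermediateField ℚ Qbar} [FiniteDimensional ℚ κ] {J : Type} [Fintype J]
    [DecidableEq J] (ω : Module.Basis J ℚ κ) {dg : ℕ} (hdg : 1 ≤ dg) (j₀ : J) {β : Type}
    [Fintype β] [DecidableEq β] {T : κ[X]} (hT : T ≠ 0) {A : Matrix β β κ[X]} {K : Type}
    [Field K] [CharZero K] [Algebra κ K] {u : K} {D : Derivation ℚ K K} (hu : RatX κ u D)
    (ht : TameM D (fun i j => aeval u (A i j) / aeval u T)) :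
    Nonempty (UniE (fun j => ω j) dg j₀ T A) := by
  classical
  obtain ⟨L, _, _, _, DL, t, a, h0⟩ := exists_mod0 (ω := fun j => ω j) (fun j => ω.ne_zero j) hdg j₀
  obtain ⟨k, _, _, _, _, Dk, h⟩ := exists_mod1 ω h0
  obtain ⟨φ, hφu, hφp, hφD⟩ := exists_hom hu h.const h.tr
  have hPG := mod_PG h
  have hchain := chain φ hφD (hPG t) ht
  have := h.fin
  have := h.frac
  -- the basis
  set v : J × ℕ → L := fun p => algebraMap κ L (ω p.1) * t ^ p.2 with hv
  have hv0 : v (j₀, 0) ≠ 0 := by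
    rw [hv]
    simp only [pow_zero, mul_one]
    rw [Ne, map_eq_zero]
    exact ω.ne_zero j₀
  obtain ⟨Γ, -, hsub, hspan, hli⟩ := exists_linearIndepOn_extension (K := k) (v := v)
    ((linearIndepOn_singleton_iff k).2 hv0) (Set.subset_univ ({(j₀, 0)} : Set (J × ℕ)))
  have hli' : LinearIndependent k (fun x : Γ => v x) := hli
  have hΓ : Finite Γ := hli'.finite_of_isNoetherian
  have fΓ : Fintype Γ := Fintype.ofFinite Γ
  set bb : Γ → J × ℕ := fun x => x with hbb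
  have hspan' : ⊤ ≤ Submodule.span k (Set.range (fun x : Γ => v x)) := by
    rw [← h.span, Submodule.span_le]
    rintro _ ⟨p, rfl⟩
    have h1 : v p ∈ Submodule.span k (v '' Γ) := hspan ⟨p, Set.mem_univ p, rfl⟩
    have h2 : v '' Γ = Set.range (fun x : Γ => v x) := by
      ext x
      constructor
      · rintro ⟨q, hq, rfl⟩
        exact ⟨⟨q, hq⟩, rfl⟩
      · rintro ⟨⟨q, hq⟩, rfl⟩
        exact ⟨q, hq, rfl⟩
    rw [h2] at h1
    exact h1
  set b : Module.Basis Γ k L := Module.Basis.mk hli' hspan' with hb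
  have hbv : ∀ γ, b γ = v (bb γ) := fun γ => by
    rw [hb, Module.Basis.mk_apply]
  set γ₀ : Γ := ⟨(j₀, 0), hsub rfl⟩ with hγ₀
  have hbγ₀ : DL (b γ₀) = 0 := by
    rw [hbv, hv]
    simp only [hbb, hγ₀, pow_zero, mul_one]
    exact h.const _
  set aL : Matrix β β L := fun i i' => DL t * φ (aeval u (A i i') / aeval u T) with haL
  have hpush := tame_push h.ext hPG b hchain
  obtain ⟨Θ₀, hΘ₀, c, H, hden⟩ := exists_den h.der hpush
  -- the common denominator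
  obtain ⟨Θ₁, hΘ₁⟩ := IsLocalization.exist_integer_multiples_of_finite
    (nonZeroDivisors (MvPolynomial (Ix dg J) ℚ))
    (Sum.elim (fun x : (Γ × β) × (Γ × β) => pushM b aL x.1 x.2)
      (Sum.elim (fun x : (J × Fin (dg + 1)) × Γ => b.repr (v (x.1.1, x.1.2)) x.2)
        (Sum.elim (fun x : Γ × Γ => matD DL b x.1 x.2)
          (fun x : Γ × Γ × Γ => b.repr ((b γ₀)⁻¹ * (b x.1 * b x.2.1)) x.2.2))))
  have hΘ₁0 : (Θ₁ : MvPolynomial (Ix dg J) ℚ) ≠ 0 := nonZeroDivisors.ne_zero Θ₁.2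
  set R := MvPolynomial (Ix dg J) ℚ with hR
  have hinjR : Function.Injective (algebraMap R k) := IsFractionRing.injective R k
  have hM₁ : ∀ x y, ∃ P : R, algebraMap R k P = algebraMap R k Θ₁ * pushM b aL x y := by
    intro x y
    obtain ⟨P, hP⟩ := hΘ₁ (Sum.inl (x, y))
    refine ⟨P, ?_⟩
    rw [hP, Sum.elim_inl]
    exact Algebra.smul_def _ _
  have hρ₁ : ∀ (p : J × ℕ) (γ : Γ), ∃ P : R, p.2 ≤ dg →
      algebraMap R k P = algebraMap R k Θ₁ * b.repr (v p) γ := by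
    intro p γ
    by_cases hp : p.2 ≤ dg
    · obtain ⟨P, hP⟩ := hΘ₁ (Sum.inr (Sum.inl ((p.1, ⟨p.2, by omega⟩), γ)))
      refine ⟨P, fun _ => ?_⟩
      rw [hP, Sum.elim_inr, Sum.elim_inl]
      exact Algebra.smul_def _ _
    · exact ⟨0, fun h => absurd h hp⟩
  have hC₁ : ∀ x y, ∃ P : R, algebraMap R k P = algebraMap R k Θ₁ * matD DL b x y := by
    intro x y
    obtain ⟨P, hP⟩ := hΘ₁ (Sum.inr (Sum.inr (Sum.inl (x, y))))
    refine ⟨P, ?_⟩
    rw [hP, Sum.elim_inr, Sum.elim_inr, Sum.elim_inl]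
    exact Algebra.smul_def _ _
  have hν₁ : ∀ x y z, ∃ P : R, algebraMap R k P =
      algebraMap R k Θ₁ * b.repr ((b γ₀)⁻¹ * (b x * b y)) z := by
    intro x y z
    obtain ⟨P, hP⟩ := hΘ₁ (Sum.inr (Sum.inr (Sum.inr (x, y, z))))
    refine ⟨P, ?_⟩
    rw [hP, Sum.elim_inr, Sum.elim_inr, Sum.elim_inr]
    exact Algebra.smul_def _ _
  choose M₁ hM₁ using hM₁
  choose ρ₁ hρ₁ using hρ₁
  choose C₁ hC₁ using hC₁
  choose ν₁ hν₁ using hν₁
  set Θ₂ : R := MvPolynomial.map (Int.castRingHom ℚ) Θ₀ with hΘ₂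
  have hΘ₂0 : Θ₂ ≠ 0 := by
    intro h1
    apply hΘ₀
    exact (MvPolynomial.map_injective _ (RingHom.injective_int (Int.castRingHom ℚ)))
      (by rw [map_zero]; exact h1)
  set Θ : R := (Θ₁ : R) * Θ₂ with hΘ
  have hΘ0 : Θ ≠ 0 := mul_ne_zero hΘ₁0 hΘ₂0
  have hne : ∀ P : R, P ≠ 0 → algebraMap R k P ≠ 0 := fun P hP h1 =>
    hP (hinjR (by rw [h1, map_zero]))
  have hgen : ∀ (P : R) (x : k), algebraMap R k P = algebraMap R k Θ₁ * x →
      x = algebraMap R k (P * Θ₂) / algebraMap R k Θ := by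
    intro P x hx
    rw [hΘ, map_mul (algebraMap R k), map_mul (algebraMap R k), hx,
      mul_div_mul_right _ _ (hne _ hΘ₂0), mul_div_cancel_left₀ _ (hne _ hΘ₁0)]
  set M : Matrix (Γ × β) (Γ × β) R := fun x y => M₁ x y * Θ₂ with hM
  set C : Matrix Γ Γ R := fun x y => C₁ x y * Θ₂ with hC
  have hMα : ∀ x y, pushM b aL x y = algebraMap R k (M x y) / algebraMap R k Θ := fun x y =>
    hgen _ _ (hM₁ x y)
  have hCα : ∀ x y, matD DL b x y = algebraMap R k (C x y) / algebraMap R k Θ := fun x y =>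
    hgen _ _ (hC₁ x y)
  have hρα : ∀ (p : J × ℕ) (γ : Γ), p.2 ≤ dg →
      b.repr (v p) γ = algebraMap R k (ρ₁ p γ * Θ₂) / algebraMap R k Θ := fun p γ hp =>
    hgen _ _ (hρ₁ p γ hp)
  have hνα : ∀ x y z, b.repr ((b γ₀)⁻¹ * (b x * b y)) z =
      algebraMap R k (ν₁ x y z * Θ₂) / algebraMap R k Θ := fun x y z => hgen _ _ (hν₁ x y z)
  have hAα : ∀ x y, pushG DL b aL x y = algebraMap R k (addG C M x y) / algebraMap R k Θ := by
    intro x y
    rw [pushG_add]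
    unfold addG
    rw [map_add, add_div, hMα]
    congr 1
    split_ifs
    · exact hCα _ _
    · rw [map_zero, zero_div]
  have hΘ₀' : ∀ a : Ix dg J → ℤ, MvPolynomial.eval (fun i => ((a i : ℤ) : ℚ)) Θ ≠ 0 →
      MvPolynomial.eval a Θ₀ ≠ 0 := by
    intro a h1 h2
    apply h1
    rw [hΘ, map_mul, hΘ₂]
    have h3 : MvPolynomial.eval (fun i => ((a i : ℤ) : ℚ))
        (MvPolynomial.map (Int.castRingHom ℚ) Θ₀) = ((MvPolynomial.eval a Θ₀ : ℤ) : ℚ) := by
      rw [MvPolynomial.eval_map]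
      have := MvPolynomial.eval₂_comp_left (Int.castRingHom ℚ) (RingHom.id ℤ) a Θ₀
      simp only [RingHomCompTriple.comp_eq] at this
      rw [MvPolynomial.eval, MvPolynomial.coe_eval₂Hom]
      exact this.symm
    rw [h3, h2, Int.cast_zero, mul_zero]
  obtain ⟨c', hc'⟩ := gr_of (0, j₀) Θ (addG C M) Θ₀ c H (hden Θ (addG C M) hΘ0 hAα) hΘ₀'
  -- sums
  have hsum : ∀ x : L, x = ∑ γ, algebraMap k L (b.repr x γ) * v (bb γ) := by
    intro x
    conv_lhs => rw [← b.sum_repr x]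
    refine Finset.sum_congr rfl fun γ _ => ?_
    rw [Algebra.smul_def, hbv]
  -- the identities
  have hidC : ∀ (t' : ℂ) (a' : Ix dg J → ℂ), Fv (fun j => ω j) a' t' = 0 → ∀ (γ : Γ),
      MvPolynomial.aeval a' Θ * (-(algebraMap κ ℂ (ω j₀))) *
        ((((bb γ).2 : ℕ) : ℂ) * algebraMap κ ℂ (ω (bb γ).1) * t' ^ ((bb γ).2 - 1)) =
      Fd (fun j => ω j) a' t' * ∑ γ', MvPolynomial.aeval a' (C γ γ') *
        (algebraMap κ ℂ (ω (bb γ').1) * t' ^ (bb γ').2) := by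
    intro t' a' ha' γ
    have h1 := mod_ident h bb (T := (1 : κ[X])) one_ne_zero (A := (0 : Matrix Unit Unit κ[X])) hΘ0
      (M := fun x y => C x.1 y.1) (fun γ i i' => by
        have h2 := hsum (DL (b γ))
        rw [hbv] at h2
        rw [Matrix.zero_apply, map_zero, zero_div, mul_zero, mul_zero, add_zero,
          if_pos (Subsingleton.elim i i')]
        refine h2.trans (Finset.sum_congr rfl fun γ' _ => ?_)
        simp only
        rw [← hCα γ γ', matD, hbv]) t' a' ha' γ () ()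
    simpa using h1
  have hidA : ∀ (t' : ℂ) (a' : Ix dg J → ℂ), Fv (fun j => ω j) a' t' = 0 → ∀ (γ : Γ) (i i' : β),
      MvPolynomial.aeval a' Θ * (-(algebraMap κ ℂ (ω j₀))) *
        ((if i = i' then (((bb γ).2 : ℕ) : ℂ) * algebraMap κ ℂ (ω (bb γ).1) *
          t' ^ ((bb γ).2 - 1) * aeval t' T else 0) +
          algebraMap κ ℂ (ω (bb γ).1) * t' ^ (bb γ).2 * aeval t' (A i i')) =
      Fd (fun j => ω j) a' t' * aeval t' T * ∑ γ', MvPolynomial.aeval a'
        (addG C M (γ, i) (γ', i')) * (algebraMap κ ℂ (ω (bb γ').1) * t' ^ (bb γ').2) := by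
    intro t' a' ha' γ i i'
    refine mod_ident h bb hT hΘ0 (M := addG C M) (fun γ i i' => ?_) t' a' ha' γ i i'
    have h1 := hsum ((if i = i' then DL (b γ) else 0) + b γ *
      (DL t * φ (aeval u (A i i') / aeval u T)))
    rw [hbv, map_div₀, hφp, hφp] at h1
    rw [h1]
    refine Finset.sum_congr rfl fun γ' _ => ?_
    rw [← hAα (γ, i) (γ', i')]
    unfold pushG
    simp only [haL, hbv, map_div₀, hφp]
    rfl
  refine ⟨{
    Γ := Γ
    b := bb
    Θ := Θ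
    Θ_ne := hΘ0
    C := C
    M := M
    ρ := fun p γ => ρ₁ p γ * Θ₂
    c := c'
    growth := hc'
    identC := hidC
    identM := ?_
    span := ?_
    star := starG_of h.der h.ext b hbγ₀ hΘ0 hCα hMα (ν := fun x y z => ν₁ x y z * Θ₂) hνα }⟩
  · intro t' a' ha' γ i i'
    have h1 := hidA t' a' ha' γ i i'
    have h2 := hidC t' a' ha' γ
    by_cases hii : i = i'
    · subst hii
      have h3 : ∀ γ', MvPolynomial.aeval a' (addG C M (γ, i) (γ', i)) =
          MvPolynomial.aeval a' (C γ γ') + MvPolynomial.aeval a' (M (γ, i) (γ', i)) := by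
        intro γ'
        unfold addG
        rw [if_pos rfl, map_add]
      simp only [h3, add_mul, Finset.sum_add_distrib, if_true] at h1
      linear_combination h1 - (aeval t' T) * h2
    · have h3 : ∀ γ', MvPolynomial.aeval a' (addG C M (γ, i) (γ', i')) =
          MvPolynomial.aeval a' (M (γ, i) (γ', i')) := by
        intro γ'
        unfold addG
        rw [if_neg hii, zero_add]
      simp only [h3, if_neg hii, zero_add] at h1
      exact h1
  · intro t' a' ha' p hp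
    refine mod_span h bb hΘ0 (ρ := fun γ => ρ₁ p γ * Θ₂) ?_ t' a' ha'
    rw [show algebraMap κ L (ω p.1) * t ^ p.2 = v p from rfl]
    conv_lhs => rw [hsum (v p)]
    refine Finset.sum_congr rfl fun γ _ => ?_
    rw [hρα p γ hp]

end Pool.Agent.Helper79.EE
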